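import Pool.Agent.H47.SR.D1

/-!
# D2: the estimates on a subspace, continued
-/

set_option autoImplicit false

namespace Pool.Agent.H47.SR

variable {X : Type*} [NormedAddCommGroup X] [NormedSpace ℝ X]

section aux

variable {E : Type*} [NormedAddCommGroup E] [NormedSpace ℝ E]

theorem d2_key (T : E →L[ℝ] E →L[ℝ] ℝ) (a c : ℝ) (u v : E) (ha : 0 ≤ a) (hT : ‖T‖ * a ≤ c) :
    |T u v| * a ≤ c * ‖u‖ * ‖v‖ := by
  have h1 : |T u v| ≤ ‖T‖ * ‖u‖ * ‖v‖ := by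
    rw [← Real.norm_eq_abs]
    exact T.le_opNorm₂ u v
  calc |T u v| * a ≤ ‖T‖ * ‖u‖ * ‖v‖ * a := mul_le_mul_of_nonneg_right h1 ha
    _ = ‖T‖ * a * (‖u‖ * ‖v‖) := by ring
    _ ≤ c * (‖u‖ * ‖v‖) := mul_le_mul_of_nonneg_right hT (by positivity)
    _ = c * ‖u‖ * ‖v‖ := by ring

theorem d2_bbd {k0 : ℕ} {N : E → ℝ} (hc : Cond 0 k0 N) {x : E} (hx : x ≠ 0) (h k : E) :
    |fderiv ℝ (fderiv ℝ N) x h k| * ‖x‖ ≤ ((k0 : ℝ) + 1) * ‖h‖ * ‖k‖ :=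
  d2_key _ _ _ _ _ (norm_nonneg _) (hc.bdd x hx)

theorem d2_cnt {i k0 : ℕ} {N : E → ℝ} (hc : Cond i k0 N) {x y : E} (hx : x ≠ 0) (h k : E)
    (hle : ‖x - y‖ ≤ ‖x‖ / ((k0 : ℝ) + 2)) :
    |fderiv ℝ (fderiv ℝ N) x h k - fderiv ℝ (fderiv ℝ N) y h k| * ‖x‖ ≤
      ‖h‖ * ‖k‖ / ((i : ℝ) + 1) := by
  have h2 := d2_key (fderiv ℝ (fderiv ℝ N) x - fderiv ℝ (fderiv ℝ N) y) ‖x‖ _ h k
    (norm_nonneg _) (hc.cnt x y hx hle)
  rw [sub_apply, sub_apply] at h2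
  refine h2.trans (le_of_eq ?_)
  ring

theorem d2_tay {i k0 : ℕ} {N : E → ℝ} (hC : ContDiffOn ℝ 2 N {x : E | x ≠ 0}) (hc : Cond i k0 N)
    {x : E} (hx : x ≠ 0) (h k : E) (hle : ‖h‖ ≤ ‖x‖ / ((k0 : ℝ) + 2)) :
    |fderiv ℝ N (x + h) k - fderiv ℝ N x k - fderiv ℝ (fderiv ℝ N) x h k| * ‖x‖ ≤
      ‖h‖ * ‖k‖ / ((i : ℝ) + 1) := by
  have hxp : 0 < ‖x‖ := norm_pos_iff.2 hx
  have hp2 : (1 : ℝ) < (k0 : ℝ) + 2 := by
    have : (0 : ℝ) ≤ (k0 : ℝ) := Nat.cast_nonneg _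
    linarith
  have hr : ‖x‖ / ((k0 : ℝ) + 2) < ‖x‖ := div_lt_self hxp hp2
  have hB : ∀ y : E, ‖x - y‖ ≤ ‖x‖ / ((k0 : ℝ) + 2) →
      ‖fderiv ℝ (fderiv ℝ N) x - fderiv ℝ (fderiv ℝ N) y‖ ≤ 1 / ((i : ℝ) + 1) / ‖x‖ := by
    intro y hy
    rw [le_div_iff₀ hxp]
    exact hc.cnt x y hx hy
  have h1 := tay_fd hC hr hB hle
  have h2 : |(fderiv ℝ N (x + h) - fderiv ℝ N x - fderiv ℝ (fderiv ℝ N) x h) k| ≤
      1 / ((i : ℝ) + 1) / ‖x‖ * ‖h‖ * ‖k‖ := by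
    rw [← Real.norm_eq_abs]
    exact (ContinuousLinearMap.le_opNorm _ _).trans
      (mul_le_mul_of_nonneg_right h1 (norm_nonneg _))
  rw [sub_apply, sub_apply] at h2
  calc _ ≤ 1 / ((i : ℝ) + 1) / ‖x‖ * ‖h‖ * ‖k‖ * ‖x‖ :=
        mul_le_mul_of_nonneg_right h2 (norm_nonneg _)
    _ = ‖h‖ * ‖k‖ / ((i : ℝ) + 1) := by
        field_simp

end aux

open Classical in
/-- ROW D2a. Take `N' x = if h : x ∈ S then N ⟨x, h⟩ else 0`, and `D'`, `B'` in the same way from `fderiv ℝ N` and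
`fderiv ℝ (fderiv ℝ N)`. First state everything for the functions `N`, `fun x h => fderiv ℝ N x h`,
`fun x h k => fderiv ℝ (fderiv ℝ N) x h k` on the normed space `↥S` (all `x h k : ↥S`), then transport. `Dbd`: `abs_fderiv_le` and `Cond.upp` for
`i = 0`; `Bbd`: `Cond.bdd` for `i = 0` and `le_opNorm` twice; `sub`: `sub_grad`; `tay`: `tay_fd` with `r = ‖x‖ / (p j + 2)`,
`ε = 1 / (j + 1) / ‖x‖` and `Cond.cnt`. -/
theorem exists_est (p : ℕ → ℕ) (m : ℕ) (S : Submodule ℝ X) (N : S → ℝ) (hN : EqNorm N)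
    (hC : ContDiffOn ℝ 2 N {x : S | x ≠ 0}) (hc : ∀ i ≤ m, Cond i (p i) N) :
    ∃ (N' : X → ℝ) (D' : X → X → ℝ) (B' : X → X → X → ℝ), Est p m S N' D' B' := by
  classical
  let P : X → S := fun x => if h : x ∈ S then ⟨x, h⟩ else 0
  have hP : ∀ x (hx : x ∈ S), P x = ⟨x, hx⟩ := fun x hx => dif_pos hx
  have hPa : ∀ x ∈ S, ∀ y ∈ S, P (x + y) = P x + P y := by
    intro x hx y hy
    rw [hP x hx, hP y hy, hP _ (S.add_mem hx hy)]
    rfl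
  have hPs : ∀ (t : ℝ), ∀ x ∈ S, P (t • x) = t • P x := by
    intro t x hx
    rw [hP x hx, hP _ (S.smul_mem t hx)]
    rfl
  have hPb : ∀ x ∈ S, ∀ y ∈ S, P (x - y) = P x - P y := by
    intro x hx y hy
    rw [hP x hx, hP y hy, hP _ (S.sub_mem hx hy)]
    rfl
  have hPn : ∀ x ∈ S, ‖P x‖ = ‖x‖ := by
    intro x hx
    rw [hP x hx]
    rfl
  have hP0 : ∀ x ∈ S, x ≠ 0 → P x ≠ 0 := by
    intro x hx hx0 h
    apply hx0
    rw [← norm_eq_zero, ← hPn x hx, h, norm_zero]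
  have h00 : Cond 0 (p 0) N := hc 0 (Nat.zero_le m)
  refine ⟨fun x => N (P x), fun x h => fderiv ℝ N (P x) (P h),
    fun x h k => fderiv ℝ (fderiv ℝ N) (P x) (P h) (P k), ?_⟩
  constructor
  case low =>
    intro x hx
    rw [← hPn x hx]
    exact h00.low (P x)
  case upp =>
    intro x hx
    rw [← hPn x hx]
    exact h00.upp (P x)
  case tri =>
    intro x hx y hy
    rw [hPa x hx y hy]
    exact hN.2.1 _ _
  case hom =>
    intro t x hx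
    rw [hPs t x hx]
    exact hN.2.2 _ _
  case ucv =>
    intro j hj x hx y hy h1 h2 h3
    beta_reduce at h1 h2 h3 ⊢
    rw [hPb x hx y hy] at h3
    rw [hPs _ _ (S.add_mem hx hy), hPa x hx y hy]
    exact (hc j hj).ucv _ _ h1 h2 h3.le
  case Dadd =>
    intro x _ _ h hh k hk
    rw [hPa h hh k hk, map_add]
  case Dsmul =>
    intro x _ _ t h hh
    rw [hPs t h hh, map_smul, smul_eq_mul]
  case Dbd =>
    intro x hx hx0 h hh
    rw [← hPn h hh]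
    exact (abs_fderiv_le hN hC (hP0 x hx hx0) (P h)).trans (h00.upp (P h))
  case Badd₁ =>
    intro x _ _ h hh h' hh' k _
    rw [hPa h hh h' hh', map_add]
    rfl
  case Bsmul₁ =>
    intro x _ _ t h hh k _
    rw [hPs t h hh, map_smul]
    rfl
  case Badd₂ =>
    intro x _ _ h _ k hk k' hk'
    rw [hPa k hk k' hk', map_add]
  case Bsmul₂ =>
    intro x _ _ t h _ k hk
    rw [hPs t k hk, map_smul, smul_eq_mul]
  case Bbd =>
    intro x hx hx0 h hh k hk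
    rw [← hPn x hx, ← hPn h hh, ← hPn k hk]
    exact d2_bbd h00 (hP0 x hx hx0) (P h) (P k)
  case sub =>
    intro x hx hx0 h hh
    rw [hPa x hx h hh]
    exact sub_grad hN hC (hP0 x hx hx0) (P h)
  case tay =>
    intro j hj x hx hx0 h hh k hk hle
    rw [hPa x hx h hh]
    rw [← hPn x hx, ← hPn h hh] at hle
    rw [← hPn x hx, ← hPn h hh, ← hPn k hk]
    exact d2_tay hC (hc j hj) (hP0 x hx hx0) (P h) (P k) hle
  case cnt =>
    intro j hj x hx hx0 y hy h hh k hk hle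
    rw [← hPn x hx, ← hPn _ (S.sub_mem hx hy), hPb x hx y hy] at hle
    rw [← hPn x hx, ← hPn h hh, ← hPn k hk]
    exact d2_cnt (hc j hj) (hP0 x hx hx0) (P h) (P k) hle

end Pool.Agent.H47.SR
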