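import Pool.Agent.H47.SR.Df

/-!
# E1: ultralimits
-/

set_option autoImplicit false

open Filter Topology

namespace Pool.Agent.H47.SR

/-- ROW E1a. `Set.Icc (-C) C` is compact: `IsCompact.ultrafilter_le_nhds` for `U.map f`. -/
theorem exists_lim {ι : Type*} (U : Ultrafilter ι) (f : ι → ℝ) (C : ℝ)
    (h : ∀ᶠ i in (U : Filter ι), |f i| ≤ C) : ∃ L : ℝ, Tendsto f U (𝓝 L) := by
  have hc : IsCompact (Set.Icc (-C) C) := isCompact_Icc
  obtain ⟨L, _, hL⟩ := hc.ultrafilter_le_nhds (U.map f) (by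
    rw [Filter.le_principal_iff]
    exact h.mono (fun i hi => abs_le.mp hi))
  exact ⟨L, hL⟩

variable {X : Type*} [NormedAddCommGroup X] [NormedSpace ℝ X]

/-- ROW E1b. The values are eventually bounded (`upp`, `low` (so `0 ≤ N`), `Dbd`, `Bbd`; `B` is bounded by
`(p 0 + 1) * ‖h‖ * ‖k‖ / ‖x‖`); `exists_lim` and choice (for `x = 0` take anything in `D'`, `B'`). -/
theorem exists_funs {ι : Type*} (U : Ultrafilter ι) (p : ℕ → ℕ) (m : ι → ℕ) (S : ι → Submodule ℝ X)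
    (N : ι → X → ℝ) (D : ι → X → X → ℝ) (B : ι → X → X → X → ℝ)
    (hE : ∀ i, Est p (m i) (S i) (N i) (D i) (B i))
    (hS : ∀ x : X, ∀ᶠ i in (U : Filter ι), x ∈ S i) :
    ∃ (N' : X → ℝ) (D' : X → X → ℝ) (B' : X → X → X → ℝ),
      (∀ x, Tendsto (fun i => N i x) U (𝓝 (N' x))) ∧
      (∀ x, x ≠ 0 → ∀ h, Tendsto (fun i => D i x h) U (𝓝 (D' x h))) ∧
      (∀ x, x ≠ 0 → ∀ h k, Tendsto (fun i => B i x h k) U (𝓝 (B' x h k))) := by
  have hN : ∀ x : X, ∃ L : ℝ, Tendsto (fun i => N i x) U (𝓝 L) := by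
    intro x
    apply exists_lim U _ (((p 0 : ℝ) + 1) * ‖x‖)
    filter_upwards [hS x] with i hi
    have h1 := (hE i).low x hi
    have h2 := (hE i).upp x hi
    have h3 : (0 : ℝ) < (p 0 : ℝ) + 1 := by positivity
    have h4 : 0 ≤ N i x := by
      by_contra hcon
      push Not at hcon
      have := mul_neg_of_pos_of_neg h3 hcon
      linarith [norm_nonneg x]
    rw [abs_of_nonneg h4]
    exact h2
  have hD : ∀ x h : X, ∃ L : ℝ, x ≠ 0 → Tendsto (fun i => D i x h) U (𝓝 L) := by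
    intro x h
    by_cases hx : x = 0
    · exact ⟨0, fun h0 => absurd hx h0⟩
    · obtain ⟨L, hL⟩ := exists_lim U (fun i => D i x h) (((p 0 : ℝ) + 1) * ‖h‖) (by
        filter_upwards [hS x, hS h] with i hi hj
        exact (hE i).Dbd x hi hx h hj)
      exact ⟨L, fun _ => hL⟩
  have hB : ∀ x h k : X, ∃ L : ℝ, x ≠ 0 → Tendsto (fun i => B i x h k) U (𝓝 L) := by
    intro x h k
    by_cases hx : x = 0
    · exact ⟨0, fun h0 => absurd hx h0⟩
    · obtain ⟨L, hL⟩ := exists_lim U (fun i => B i x h k) (((p 0 : ℝ) + 1) * ‖h‖ * ‖k‖ / ‖x‖) (by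
        filter_upwards [hS x, hS h, hS k] with i hi hj hk
        rw [le_div_iff₀ (norm_pos_iff.mpr hx)]
        exact (hE i).Bbd x hi hx h hj k hk)
      exact ⟨L, fun _ => hL⟩
  choose N' hN' using hN
  choose D' hD' using hD
  choose B' hB' using hB
  exact ⟨N', D', B', hN', fun x hx h => hD' x h hx, fun x hx h k => hB' x h k hx⟩

end Pool.Agent.H47.SR
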