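import Pool.Agent.H47.SR.Df

/-!
# E2: the estimates pass to ultralimits
-/

set_option autoImplicit false

open Filter Topology

namespace Pool.Agent.H47.SR

variable {X : Type*} [NormedAddCommGroup X] [NormedSpace ℝ X]

/-- ROW E2a. All equations and inequalities except `ucv` are closed conditions on the values of `N, D, B` at fixed points
(`le_of_tendsto_of_tendsto`, `tendsto_nhds_unique`, `Filter.Tendsto.congr'`); the points are eventually in `S i` and `j ≤ m i` eventually. (In `tay` the point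
`x + h` is not 0 as `‖h‖ ≤ ‖x‖ / 2`; in `cnt` `y ≠ 0` for the same reason.) -/
theorem est_lim_closed {ι : Type*} (U : Ultrafilter ι) (p : ℕ → ℕ) (m : ι → ℕ)
    (S : ι → Submodule ℝ X) (N : ι → X → ℝ) (D : ι → X → X → ℝ) (B : ι → X → X → X → ℝ)
    (hE : ∀ i, Est p (m i) (S i) (N i) (D i) (B i))
    (hS : ∀ x : X, ∀ᶠ i in (U : Filter ι), x ∈ S i)
    (hm : ∀ j : ℕ, ∀ᶠ i in (U : Filter ι), j ≤ m i)
    (N' : X → ℝ) (D' : X → X → ℝ) (B' : X → X → X → ℝ)
    (hN : ∀ x, Tendsto (fun i => N i x) U (𝓝 (N' x)))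
    (hD : ∀ x, x ≠ 0 → ∀ h, Tendsto (fun i => D i x h) U (𝓝 (D' x h)))
    (hB : ∀ x, x ≠ 0 → ∀ h k, Tendsto (fun i => B i x h k) U (𝓝 (B' x h k)))
    (hu : ∀ j : ℕ, ∀ x y : X, N' x ≤ 1 → N' y ≤ 1 → 1 / ((j : ℝ) + 1) < N' (x - y) →
      N' ((1 / 2 : ℝ) • (x + y)) ≤ 1 - 1 / ((p j : ℝ) + 1)) (M : ℕ) :
    Est p M ⊤ N' D' B' := by
  have hpos : ∀ (j : ℕ) (x : X), x ≠ 0 → ‖x‖ / ((p j : ℝ) + 2) < ‖x‖ := by
    intro j x hx
    have h1 : 0 < ‖x‖ := norm_pos_iff.2 hx
    have h2 : (0 : ℝ) ≤ p j := Nat.cast_nonneg _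
    rw [div_lt_iff₀ (by linarith)]
    nlinarith
  refine
    { low := ?_, upp := ?_, tri := ?_, hom := ?_, ucv := ?_, Dadd := ?_, Dsmul := ?_, Dbd := ?_,
      Badd₁ := ?_, Bsmul₁ := ?_, Badd₂ := ?_, Bsmul₂ := ?_, Bbd := ?_, sub := ?_, tay := ?_,
      cnt := ?_ }
  · intro x _
    refine le_of_tendsto_of_tendsto tendsto_const_nhds ((hN x).const_mul ((p 0 : ℝ) + 1)) ?_
    filter_upwards [hS x] with i hi using (hE i).low x hi
  · intro x _
    refine le_of_tendsto_of_tendsto (hN x) tendsto_const_nhds ?_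
    filter_upwards [hS x] with i hi using (hE i).upp x hi
  · intro x _ y _
    refine le_of_tendsto_of_tendsto (hN (x + y)) ((hN x).add (hN y)) ?_
    filter_upwards [hS x, hS y] with i hi hi' using (hE i).tri x hi y hi'
  · intro t x _
    refine tendsto_nhds_unique_of_eventuallyEq (hN (t • x)) ((hN x).const_mul |t|) ?_
    filter_upwards [hS x] with i hi using (hE i).hom t x hi
  · intro j _ x _ y _ h1 h2 h3
    exact hu j x y h1 h2 h3
  · intro x _ hx h _ k _
    refine tendsto_nhds_unique_of_eventuallyEq (hD x hx (h + k))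
      ((hD x hx h).add (hD x hx k)) ?_
    filter_upwards [hS x, hS h, hS k] with i hi hi' hi'' using (hE i).Dadd x hi hx h hi' k hi''
  · intro x _ hx t h _
    refine tendsto_nhds_unique_of_eventuallyEq (hD x hx (t • h)) ((hD x hx h).const_mul t) ?_
    filter_upwards [hS x, hS h] with i hi hi' using (hE i).Dsmul x hi hx t h hi'
  · intro x _ hx h _
    refine le_of_tendsto_of_tendsto (hD x hx h).abs tendsto_const_nhds ?_
    filter_upwards [hS x, hS h] with i hi hi' using (hE i).Dbd x hi hx h hi'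
  · intro x _ hx h _ h' _ k _
    refine tendsto_nhds_unique_of_eventuallyEq (hB x hx (h + h') k)
      ((hB x hx h k).add (hB x hx h' k)) ?_
    filter_upwards [hS x, hS h, hS h', hS k] with i a b c d using
      (hE i).Badd₁ x a hx h b h' c k d
  · intro x _ hx t h _ k _
    refine tendsto_nhds_unique_of_eventuallyEq (hB x hx (t • h) k)
      ((hB x hx h k).const_mul t) ?_
    filter_upwards [hS x, hS h, hS k] with i a b c using (hE i).Bsmul₁ x a hx t h b k c
  · intro x _ hx h _ k _ k' _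
    refine tendsto_nhds_unique_of_eventuallyEq (hB x hx h (k + k'))
      ((hB x hx h k).add (hB x hx h k')) ?_
    filter_upwards [hS x, hS h, hS k, hS k'] with i a b c d using
      (hE i).Badd₂ x a hx h b k c k' d
  · intro x _ hx t h _ k _
    refine tendsto_nhds_unique_of_eventuallyEq (hB x hx h (t • k))
      ((hB x hx h k).const_mul t) ?_
    filter_upwards [hS x, hS h, hS k] with i a b c using (hE i).Bsmul₂ x a hx t h b k c
  · intro x _ hx h _ k _
    refine le_of_tendsto_of_tendsto ((hB x hx h k).abs.mul_const ‖x‖) tendsto_const_nhds ?_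
    filter_upwards [hS x, hS h, hS k] with i a b c using (hE i).Bbd x a hx h b k c
  · intro x _ hx h _
    refine le_of_tendsto_of_tendsto (hD x hx h) ((hN (x + h)).sub (hN x)) ?_
    filter_upwards [hS x, hS h] with i a b using (hE i).sub x a hx h b
  · intro j _ x _ hx h _ k _ hh
    have hxh : x + h ≠ 0 := by
      intro h0
      have e : ‖h‖ = ‖x‖ := by
        rw [eq_neg_of_add_eq_zero_right h0, norm_neg]
      rw [e] at hh
      exact absurd (hpos j x hx) (not_lt.2 hh)
    refine le_of_tendsto_of_tendsto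
      ((((hD (x + h) hxh k).sub (hD x hx k)).sub (hB x hx h k)).abs.mul_const ‖x‖)
      tendsto_const_nhds ?_
    filter_upwards [hS x, hS h, hS k, hm j] with i a b c d using (hE i).tay j d x a hx h b k c hh
  · intro j _ x _ hx y _ h _ k _ hxy
    have hy : y ≠ 0 := by
      intro h0
      rw [h0, sub_zero] at hxy
      exact absurd (hpos j x hx) (not_lt.2 hxy)
    refine le_of_tendsto_of_tendsto
      (((hB x hx h k).sub (hB y hy h k)).abs.mul_const ‖x‖) tendsto_const_nhds ?_
    filter_upwards [hS x, hS y, hS h, hS k, hm j] with i a b c d e using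
      (hE i).cnt j e x a hx y b h c k d hxy

end Pool.Agent.H47.SR
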