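import Pool.Agent.H47.SR.Df

/-!
# E3: uniform convexity passes to ultralimits
-/

set_option autoImplicit false

open Filter Topology

namespace Pool.Agent.H47.SR

variable {X : Type*} [NormedAddCommGroup X] [NormedSpace ℝ X]

/-- ROW E3a. Let `0 < t < 1` be so close to 1 that `1 / (j + 1) < t * N' (x - y)`. Eventually `N i (t • x) = t * N i x ≤ 1` (limit
`t * N' x ≤ t < 1`), the same for `y`, and `1 / (j + 1) < N i (t • x - t • y)`; so by `ucv` (and `hom`)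
`t * N i ((1 / 2) • (x + y)) ≤ 1 - 1 / (p j + 1)` eventually, hence `t * N' ((1 / 2) • (x + y)) ≤ 1 - 1 / (p j + 1)`; let `t → 1`. -/
theorem ucv_lim {ι : Type*} (U : Ultrafilter ι) (p : ℕ → ℕ) (m : ι → ℕ)
    (S : ι → Submodule ℝ X) (N : ι → X → ℝ) (D : ι → X → X → ℝ) (B : ι → X → X → X → ℝ)
    (hE : ∀ i, Est p (m i) (S i) (N i) (D i) (B i))
    (hS : ∀ x : X, ∀ᶠ i in (U : Filter ι), x ∈ S i)
    (hm : ∀ j : ℕ, ∀ᶠ i in (U : Filter ι), j ≤ m i)
    (N' : X → ℝ) (hN : ∀ x, Tendsto (fun i => N i x) U (𝓝 (N' x)))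
    (j : ℕ) (x y : X) (hx : N' x ≤ 1) (hy : N' y ≤ 1) (hxy : 1 / ((j : ℝ) + 1) < N' (x - y)) :
    N' ((1 / 2 : ℝ) • (x + y)) ≤ 1 - 1 / ((p j : ℝ) + 1) := by
  have key : ∀ᶠ t in 𝓝[<] (1 : ℝ), t * N' ((1 / 2 : ℝ) • (x + y)) ≤ 1 - 1 / ((p j : ℝ) + 1) := by
    have h1 : Tendsto (fun t : ℝ => t * N' (x - y)) (𝓝[<] 1) (𝓝 (N' (x - y))) := by
      have h : Tendsto (fun t : ℝ => t * N' (x - y)) (𝓝 1) (𝓝 (1 * N' (x - y))) :=
        (continuous_id.mul continuous_const).tendsto 1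
      rw [one_mul] at h
      exact h.mono_left nhdsWithin_le_nhds
    have h2 : ∀ᶠ t in 𝓝[<] (1 : ℝ), 1 / ((j : ℝ) + 1) < t * N' (x - y) :=
      h1.eventually (lt_mem_nhds hxy)
    have h3 : ∀ᶠ t in 𝓝[<] (1 : ℝ), 0 < t := nhdsWithin_le_nhds (lt_mem_nhds one_pos)
    filter_upwards [h2, h3, self_mem_nhdsWithin] with t ht1 ht0 htl
    have htl' : t < 1 := htl
    have hb : ∀ u : X, N' u ≤ 1 → ∀ᶠ i in (U : Filter ι), t * N i u < 1 := by
      intro u hu
      have h4 : t * N' u < 1 := by nlinarith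
      exact ((hN u).const_mul t).eventually (gt_mem_nhds h4)
    have hd : ∀ᶠ i in (U : Filter ι), 1 / ((j : ℝ) + 1) < t * N i (x - y) :=
      ((hN (x - y)).const_mul t).eventually (lt_mem_nhds ht1)
    refine le_of_tendsto ((hN ((1 / 2 : ℝ) • (x + y))).const_mul t) ?_
    filter_upwards [hb x hx, hb y hy, hd, hS x, hS y, hm j] with i ix iy id sx sy jm
    have hom : ∀ u ∈ S i, N i (t • u) = t * N i u := by
      intro u hu
      rw [(hE i).hom t u hu, abs_of_pos ht0]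
    have e1 : t • x - t • y = t • (x - y) := (smul_sub t x y).symm
    have e2 : (1 / 2 : ℝ) • (t • x + t • y) = t • ((1 / 2 : ℝ) • (x + y)) := by
      rw [← smul_add, smul_comm]
    have h5 := (hE i).ucv j jm (t • x) ((S i).smul_mem t sx) (t • y) ((S i).smul_mem t sy)
      (by rw [hom x sx]; exact ix.le) (by rw [hom y sy]; exact iy.le)
      (by rw [e1, hom _ ((S i).sub_mem sx sy)]; exact id)
    rw [e2, hom _ ((S i).smul_mem _ ((S i).add_mem sx sy))] at h5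
    exact h5
  have h6 : Tendsto (fun t : ℝ => t * N' ((1 / 2 : ℝ) • (x + y))) (𝓝[<] 1)
      (𝓝 (N' ((1 / 2 : ℝ) • (x + y)))) := by
    have h : Tendsto (fun t : ℝ => t * N' ((1 / 2 : ℝ) • (x + y))) (𝓝 1)
        (𝓝 (1 * N' ((1 / 2 : ℝ) • (x + y)))) :=
      (continuous_id.mul continuous_const).tendsto 1
    rw [one_mul] at h
    exact h.mono_left nhdsWithin_le_nhds
  exact le_of_tendsto h6 key

end Pool.Agent.H47.SR
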