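import Pool.Agent.H47.SR.Df

/-!
# F2: the second derivative
-/

set_option autoImplicit false

open Filter Topology

namespace Pool.Agent.H47.SR

variable {X : Type*} [NormedAddCommGroup X] [NormedSpace ℝ X]

/-- ROW F2a. `tay`: for `ε > 0` take `j` with `1 / (j + 1) ≤ ε ‖x‖`; `‖D' (x + h) - D' x - B' x h‖ ≤ ε ‖h‖` for
`‖h‖ ≤ ‖x‖ / (p j + 2)` (`ContinuousLinearMap.opNorm_le_bound`). -/
theorem hasFDerivAt_D (p : ℕ → ℕ) (N : X → ℝ) (D : X → X → ℝ) (B : X → X → X → ℝ)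
    (h : ∀ m, Est p m ⊤ N D B) (D' : X → X →L[ℝ] ℝ) (B' : X → X →L[ℝ] X →L[ℝ] ℝ)
    (hD : ∀ x, x ≠ 0 → ∀ h, D' x h = D x h) (hB : ∀ x, x ≠ 0 → ∀ h k, B' x h k = B x h k)
    {x : X} (hx : x ≠ 0) : HasFDerivAt D' (B' x) x := by
  have hx0 : 0 < ‖x‖ := norm_pos_iff.2 hx
  rw [hasFDerivAt_iff_isLittleO_nhds_zero, Asymptotics.isLittleO_iff]
  intro c hc
  obtain ⟨j, hj⟩ := exists_nat_one_div_lt (mul_pos hc hx0)
  have hr : 0 < ‖x‖ / ((p j : ℝ) + 2) := by positivity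
  filter_upwards [Metric.closedBall_mem_nhds (0 : X) hr] with z hz
  rw [Metric.mem_closedBall, dist_zero_right] at hz
  have hne : x + z ≠ 0 := by
    intro h0
    have h1 : ‖z‖ = ‖x‖ := by
      rw [← norm_neg z, ← eq_neg_of_add_eq_zero_left h0]
    have h2 : ‖x‖ / ((p j : ℝ) + 2) < ‖x‖ := by
      rw [div_lt_iff₀ (by positivity)]
      nlinarith [(Nat.cast_nonneg (p j) : (0 : ℝ) ≤ (p j : ℝ))]
    linarith
  refine ContinuousLinearMap.opNorm_le_bound _ (by positivity) fun k => ?_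
  have h3 := (h j).tay j le_rfl x Submodule.mem_top hx z Submodule.mem_top k Submodule.mem_top hz
  have h4 : (D' (x + z) - D' x - B' x z) k = D (x + z) k - D x k - B x z k := by
    rw [sub_apply, sub_apply, hD _ hne, hD _ hx, hB _ hx]
  rw [h4, Real.norm_eq_abs]
  have h5 : ‖z‖ * ‖k‖ / ((j : ℝ) + 1) ≤ c * ‖z‖ * ‖k‖ * ‖x‖ := by
    have h6 : ‖z‖ * ‖k‖ / ((j : ℝ) + 1) = (1 / ((j : ℝ) + 1)) * (‖z‖ * ‖k‖) := by ring
    have h7 : c * ‖z‖ * ‖k‖ * ‖x‖ = c * ‖x‖ * (‖z‖ * ‖k‖) := by ring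
    rw [h6, h7]
    exact mul_le_mul_of_nonneg_right hj.le (by positivity)
  exact le_of_mul_le_mul_right (h3.trans h5) hx0

/-- ROW F2b. `cnt` and `opNorm_le_bound` twice. -/
theorem norm_B_sub_le (p : ℕ → ℕ) (N : X → ℝ) (D : X → X → ℝ) (B : X → X → X → ℝ)
    (h : ∀ m, Est p m ⊤ N D B) (B' : X → X →L[ℝ] X →L[ℝ] ℝ)
    (hB : ∀ x, x ≠ 0 → ∀ h k, B' x h k = B x h k) (j : ℕ) {x y : X} (hx : x ≠ 0)
    (hxy : ‖x - y‖ ≤ ‖x‖ / ((p j : ℝ) + 2)) : ‖B' x - B' y‖ * ‖x‖ ≤ 1 / ((j : ℝ) + 1) := by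
  have hx0 : 0 < ‖x‖ := norm_pos_iff.2 hx
  have hy : y ≠ 0 := by
    intro h0
    rw [h0, sub_zero] at hxy
    have h2 : ‖x‖ / ((p j : ℝ) + 2) < ‖x‖ := by
      rw [div_lt_iff₀ (by positivity)]
      nlinarith [(Nat.cast_nonneg (p j) : (0 : ℝ) ≤ (p j : ℝ))]
    linarith
  have h1 : ‖B' x - B' y‖ ≤ 1 / ((j : ℝ) + 1) / ‖x‖ := by
    refine ContinuousLinearMap.opNorm_le_bound _ (by positivity) fun z => ?_
    refine ContinuousLinearMap.opNorm_le_bound _ (by positivity) fun k => ?_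
    have h3 := (h j).cnt j le_rfl x Submodule.mem_top hx y Submodule.mem_top z Submodule.mem_top k
      Submodule.mem_top hxy
    have h4 : ((B' x - B' y) z) k = B x z k - B y z k := by
      rw [sub_apply, sub_apply, hB _ hx, hB _ hy]
    rw [h4, Real.norm_eq_abs]
    have h5 : ‖z‖ * ‖k‖ / ((j : ℝ) + 1) = 1 / ((j : ℝ) + 1) / ‖x‖ * ‖z‖ * ‖k‖ * ‖x‖ := by
      field_simp
    rw [h5] at h3
    exact le_of_mul_le_mul_right h3 hx0
  calc ‖B' x - B' y‖ * ‖x‖ ≤ 1 / ((j : ℝ) + 1) / ‖x‖ * ‖x‖ :=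
        mul_le_mul_of_nonneg_right h1 hx0.le
    _ = 1 / ((j : ℝ) + 1) := by field_simp

end Pool.Agent.H47.SR
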