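import Pool.Agent.H47.SR.F1
import Pool.Agent.H47.SR.F2

/-!
# F3: synthesis
-/

set_option autoImplicit false

open Filter Topology

namespace Pool.Agent.H47.SR

variable {X : Type*} [NormedAddCommGroup X] [NormedSpace ℝ X]

/-- ROW F3a. On the open set `{x ≠ 0}`: `fderiv ℝ N = D'`, so `fderiv ℝ (fderiv ℝ N) = B'` (`HasFDerivAt.fderiv`, `Filter.EventuallyEq.fderiv_eq`).
`ContDiffOn ℝ 2`: `contDiffOn_succ_iff_fderiv_of_isOpen` twice (`1 + 1 = 2`) and continuity of `B'` (`norm_B_sub_le`). Uniform continuity on `{N = 1}`: there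
`1 / (p 0 + 1) ≤ ‖x‖`; `norm_B_sub_le` with `j` large. -/
theorem unifC2_of_est (p : ℕ → ℕ) (N : X → ℝ) (D : X → X → ℝ) (B : X → X → X → ℝ)
    (h : ∀ m, Est p m ⊤ N D B) : UnifC2 N := by
  obtain ⟨D', B', hD, hB⟩ := exists_clm p N D B h
  have hopen : IsOpen {x : X | x ≠ 0} := isOpen_ne
  have h1 : ∀ x : X, x ≠ 0 → HasFDerivAt N (D' x) x := fun x hx => hasFDerivAt_N p N D B h D' hD hx
  have h2 : ∀ x : X, x ≠ 0 → HasFDerivAt (fderiv ℝ N) (B' x) x := by
    intro x hx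
    refine (hasFDerivAt_D p N D B h D' B' hD hB hx).congr_of_eventuallyEq ?_
    filter_upwards [hopen.mem_nhds hx] with y hy
    exact (h1 y hy).fderiv
  have h3 : ∀ x : X, x ≠ 0 → fderiv ℝ (fderiv ℝ N) x = B' x := fun x hx => (h2 x hx).fderiv
  have hcont : ContinuousOn (fderiv ℝ (fderiv ℝ N)) {x : X | x ≠ 0} := by
    have hcB : ContinuousOn B' {x : X | x ≠ 0} := by
      intro x hx
      have hx' : 0 < ‖x‖ := norm_pos_iff.2 hx
      refine ContinuousAt.continuousWithinAt ?_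
      refine (Metric.continuousAt_iff (α := X) (β := X →L[ℝ] X →L[ℝ] ℝ)).2 ?_
      intro ε hε
      obtain ⟨j, hj⟩ := exists_nat_one_div_lt (mul_pos hε hx')
      have hp : (0 : ℝ) < (p j : ℝ) + 2 := by positivity
      refine ⟨‖x‖ / ((p j : ℝ) + 2), by positivity, fun {y} hy => ?_⟩
      have h4 := norm_B_sub_le p N D B h B' hB j hx (y := y) (by
        rw [dist_comm, dist_eq_norm] at hy
        exact hy.le)
      have h5 : ‖B' x - B' y‖ * ‖x‖ < ε * ‖x‖ := lt_of_le_of_lt h4 hj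
      have h6 : ‖B' x - B' y‖ < ε := lt_of_mul_lt_mul_right h5 hx'.le
      rw [dist_comm]
      exact lt_of_eq_of_lt (@dist_eq_norm (X →L[ℝ] X →L[ℝ] ℝ) _ (B' x) (B' y)) h6
    exact hcB.congr fun x hx => h3 x hx
  refine ⟨?_, ?_⟩
  · have e : (2 : WithTop ℕ∞) = 1 + 1 := by norm_num
    rw [e, contDiffOn_succ_iff_fderiv_of_isOpen hopen]
    refine ⟨fun x hx => (h1 x hx).differentiableAt.differentiableWithinAt, fun h => by simp at h, ?_⟩
    have e' : (1 : WithTop ℕ∞) = 0 + 1 := by norm_num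
    rw [e', contDiffOn_succ_iff_fderiv_of_isOpen hopen]
    refine ⟨fun x hx => (h2 x hx).differentiableAt.differentiableWithinAt, fun h => by simp at h, ?_⟩
    rw [contDiffOn_zero]
    exact hcont
  · have hp0 : (0 : ℝ) < (p 0 : ℝ) + 1 := by positivity
    have hlow : ∀ x : X, N x = 1 → 1 / ((p 0 : ℝ) + 1) ≤ ‖x‖ := by
      intro x hx
      have h4 := (h 0).upp x Submodule.mem_top
      rw [hx] at h4
      rw [div_le_iff₀ hp0]
      linarith
    refine (Metric.uniformContinuousOn_iff (α := X) (β := X →L[ℝ] X →L[ℝ] ℝ)).2 ?_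
    intro ε hε
    obtain ⟨j, hj⟩ := exists_nat_one_div_lt (div_pos hε hp0)
    have hp : (0 : ℝ) < (p j : ℝ) + 2 := by positivity
    refine ⟨1 / ((p 0 : ℝ) + 1) / ((p j : ℝ) + 2), by positivity, ?_⟩
    intro x hx y hy hxy
    have hx1 := hlow x hx
    have hy1 := hlow y hy
    have hpos : 0 < 1 / ((p 0 : ℝ) + 1) := by positivity
    have hx0 : x ≠ 0 := norm_pos_iff.1 (lt_of_lt_of_le hpos hx1)
    have hy0 : y ≠ 0 := norm_pos_iff.1 (lt_of_lt_of_le hpos hy1)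
    rw [h3 x hx0, h3 y hy0]
    refine lt_of_eq_of_lt (@dist_eq_norm (X →L[ℝ] X →L[ℝ] ℝ) _ (B' x) (B' y)) ?_
    rw [dist_eq_norm] at hxy
    have h4 := norm_B_sub_le p N D B h B' hB j hx0 (y := y) (hxy.le.trans (by gcongr))
    have h5 : ‖B' x - B' y‖ * (1 / ((p 0 : ℝ) + 1)) ≤ ‖B' x - B' y‖ * ‖x‖ :=
      mul_le_mul_of_nonneg_left hx1 (norm_nonneg (B' x - B' y))
    have h6 : ‖B' x - B' y‖ * (1 / ((p 0 : ℝ) + 1)) < ε * (1 / ((p 0 : ℝ) + 1)) := by
      have e : ε * (1 / ((p 0 : ℝ) + 1)) = ε / ((p 0 : ℝ) + 1) := by ring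
      rw [e]
      linarith
    exact lt_of_mul_lt_mul_right h6 hpos.le

/-- ROW F3b. `EqNorm` from `low upp tri hom`, `UConv` from `ucv` (choose `j` with `1 / (j + 1) < ε`). -/
theorem pnorm_of_est (p : ℕ → ℕ) (N : X → ℝ) (D : X → X → ℝ) (B : X → X → X → ℝ)
    (h : ∀ m, Est p m ⊤ N D B) : PNorm N := by
  have hp0 : (0 : ℝ) < (p 0 : ℝ) + 1 := by positivity
  refine ⟨⟨⟨1 / ((p 0 : ℝ) + 1), (p 0 : ℝ) + 1, by positivity, hp0, fun x => ⟨?_, ?_⟩⟩, ?_, ?_⟩, ?_,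
    unifC2_of_est p N D B h⟩
  · have h1 := (h 0).low x Submodule.mem_top
    rw [div_mul_eq_mul_div, one_mul, div_le_iff₀ hp0]
    linarith
  · exact (h 0).upp x Submodule.mem_top
  · exact fun x y => (h 0).tri x Submodule.mem_top y Submodule.mem_top
  · exact fun t x => (h 0).hom t x Submodule.mem_top
  · intro ε hε
    obtain ⟨j, hj⟩ := exists_nat_one_div_lt hε
    have hp : (0 : ℝ) < (p j : ℝ) + 1 := by positivity
    refine ⟨1 / ((p j : ℝ) + 1), by positivity, fun x y hx hy hxy => ?_⟩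
    exact (h j).ucv j le_rfl x Submodule.mem_top y Submodule.mem_top hx hy (lt_of_lt_of_le hj hxy)

end Pool.Agent.H47.SR
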