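import Pool.Agent.H47.SR.C2
import Pool.Agent.H47.SR.D2
import Pool.Agent.H47.SR.E1
import Pool.Agent.H47.SR.E2
import Pool.Agent.H47.SR.E3
import Pool.Agent.H47.SR.F3

/-!
# G: separable determination
-/

set_option autoImplicit false

open Filter Topology TopologicalSpace

namespace Pool.Agent.H47.SR

variable {X : Type*} [NormedAddCommGroup X] [NormedSpace ℝ X]

/-- A family of norms on the finite-dimensional subspaces with common moduli gives a norm on
the whole space. -/
theorem pnorm_of_family (p : ℕ → ℕ)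
    (h : ∀ (F : Finset X) (m : ℕ), ∃ N : Submodule.span ℝ (F : Set X) → ℝ,
      PNorm N ∧ ∀ i ≤ m, Cond i (p i) N) : ∃ N : X → ℝ, PNorm N := by
  classical
  have key : ∀ i : Finset X × ℕ, ∃ (N : X → ℝ) (D : X → X → ℝ) (B : X → X → X → ℝ),
      Est p i.2 (Submodule.span ℝ (i.1 : Set X)) N D B := by
    intro i
    obtain ⟨N, hN, hc⟩ := h i.1 i.2
    exact exists_est p i.2 _ N hN.1 hN.2.2.1 hc
  choose N D B hE using key
  let U : Ultrafilter (Finset X × ℕ) := Ultrafilter.of atTop
  have hU : (U : Filter (Finset X × ℕ)) ≤ atTop := Ultrafilter.of_le _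
  have hS : ∀ x : X, ∀ᶠ i in (U : Filter (Finset X × ℕ)), x ∈ Submodule.span ℝ (i.1 : Set X) := by
    intro x
    apply hU
    filter_upwards [eventually_ge_atTop (({x}, 0) : Finset X × ℕ)] with i hi
    exact Submodule.subset_span (hi.1 (Finset.mem_singleton_self x))
  have hm : ∀ j : ℕ, ∀ᶠ i in (U : Filter (Finset X × ℕ)), j ≤ i.2 := by
    intro j
    apply hU
    filter_upwards [eventually_ge_atTop ((∅, j) : Finset X × ℕ)] with i hi
    exact hi.2
  obtain ⟨N', D', B', hN, hD, hB⟩ := exists_funs U p (fun i => i.2)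
    (fun i => Submodule.span ℝ (i.1 : Set X)) N D B hE hS
  refine ⟨N', pnorm_of_est p N' D' B' (fun M => ?_)⟩
  exact est_lim_closed U p (fun i => i.2) (fun i => Submodule.span ℝ (i.1 : Set X)) N D B hE hS hm
    N' D' B' hN hD hB (fun j x y hx hy hxy =>
      ucv_lim U p (fun i => i.2) (fun i => Submodule.span ℝ (i.1 : Set X)) N D B hE hS hm
        N' hN j x y hx hy hxy) M

/-- The property is separably determined. -/
theorem separably_determined
    (h : ∀ Y : Submodule ℝ X, IsClosed (Y : Set X) → IsSeparable (Y : Set X) →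
      ∃ N : Y → ℝ, PNorm N) : ∃ N : X → ℝ, PNorm N := by
  obtain ⟨p, hp⟩ := exists_moduli h
  refine pnorm_of_family p (fun F m => ?_)
  have hfin : FiniteDimensional ℝ (Submodule.span ℝ (F : Set X)) :=
    FiniteDimensional.span_finset ℝ F
  have hcl : IsClosed ((Submodule.span ℝ (F : Set X) : Submodule ℝ X) : Set X) :=
    Submodule.closed_of_finiteDimensional _
  have hsep : IsSeparable ((Submodule.span ℝ (F : Set X) : Submodule ℝ X) : Set X) :=
    (F.finite_toSet.isSeparable).span
  obtain ⟨N, hN, hc⟩ := hp (m + 1) _ hcl hsep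
  exact ⟨N, hN, fun j hj => hc j (Nat.lt_succ_of_le hj)⟩

end Pool.Agent.H47.SR
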