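import Pool.Agent.H47.SR.A1

/-!
# D1: the estimates on a subspace
-/

set_option autoImplicit false

namespace Pool.Agent.H47.SR

variable {E : Type*} [NormedAddCommGroup E] [NormedSpace ℝ E]

/-- ROW D1a. Mean value inequality (`Convex.norm_image_sub_le_of_norm_hasFDerivWithin_le'` or
`Convex.norm_image_sub_le_of_norm_fderiv_le'`) for `fderiv ℝ N` on the segment (or closed ball of radius `r` around `x`, which does not
contain 0) and the constant linear map `B x`. -/
theorem tay_fd {N : E → ℝ} (hC : ContDiffOn ℝ 2 N {x : E | x ≠ 0}) {x : E} {r ε : ℝ} (hr : r < ‖x‖)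
    (hB : ∀ y : E, ‖x - y‖ ≤ r →
      ‖fderiv ℝ (fderiv ℝ N) x - fderiv ℝ (fderiv ℝ N) y‖ ≤ ε) {h : E} (hh : ‖h‖ ≤ r) :
    ‖fderiv ℝ N (x + h) - fderiv ℝ N x - fderiv ℝ (fderiv ℝ N) x h‖ ≤ ε * ‖h‖ := by
  have hne : ∀ y ∈ Metric.closedBall x r, y ≠ 0 := by
    intro y hy h0
    rw [Metric.mem_closedBall, h0, dist_comm, dist_zero_right] at hy
    linarith
  have hd : ∀ y ∈ Metric.closedBall x r,
      HasFDerivWithinAt (fderiv ℝ N) (fderiv ℝ (fderiv ℝ N) y) (Metric.closedBall x r) y := by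
    intro y hy
    have h1 : ContDiffAt ℝ 2 N y := hC.contDiffAt (isOpen_ne.mem_nhds (hne y hy))
    have h2 : ContDiffAt ℝ 1 (fderiv ℝ N) y := h1.fderiv_right (by norm_num)
    have h3 : DifferentiableAt ℝ (fderiv ℝ N) y := h2.differentiableAt (by norm_num)
    exact h3.hasFDerivAt.hasFDerivWithinAt
  have hb : ∀ y ∈ Metric.closedBall x r,
      ‖fderiv ℝ (fderiv ℝ N) y - fderiv ℝ (fderiv ℝ N) x‖ ≤ ε := by
    intro y hy
    refine le_trans (le_of_eq (norm_sub_rev (E := E →L[ℝ] E →L[ℝ] ℝ) _ _)) (hB y ?_)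
    rw [← dist_eq_norm, dist_comm]
    exact hy
  have hr0 : 0 ≤ r := (norm_nonneg h).trans hh
  have hx : x ∈ Metric.closedBall x r := Metric.mem_closedBall_self hr0
  have hy : x + h ∈ Metric.closedBall x r := by
    rw [Metric.mem_closedBall, dist_eq_norm, add_sub_cancel_left]
    exact hh
  have key := Convex.norm_image_sub_le_of_norm_hasFDerivWithin_le' hd hb (convex_closedBall x r) hx hy
  rwa [add_sub_cancel_left] at key

end Pool.Agent.H47.SR
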