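import Pool.Agent.H47.SR.Df

/-!
# A1: homogeneity of the derivatives of a norm
-/

set_option autoImplicit false

namespace Pool.Agent.H47.SR

variable {E : Type*} [NormedAddCommGroup E] [NormedSpace ℝ E]

/-- ROW A1a. `N (t • x) = t * N x` for all `x`, so `N = t⁻¹ • (N ∘ (t • ·))`; chain rule (`fderiv_comp_smul` or
`fderiv_comp`, or HasFDerivAt both ways: `N` is differentiable at `x` iff at `t • x`; if not both sides are 0). -/
theorem fderiv_smul {N : E → ℝ} (hN : EqNorm N) {t : ℝ} (ht : 0 < t) (x : E) :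
    fderiv ℝ N (t • x) = fderiv ℝ N x := by
  have h1 : fderiv ℝ (fun y => N (t • y)) x = t • fderiv ℝ N (t • x) := fderiv_comp_smul t
  have h2 : (fun y => N (t • y)) = fun y => t • N y := by
    funext y
    rw [hN.2.2 t y, abs_of_pos ht, smul_eq_mul]
  have h3 : fderiv ℝ (fun y => t • N y) x = t • fderiv ℝ N x := congrFun (fderiv_const_smul_field (f := N) t) x
  rw [h2, h3] at h1
  exact (smul_right_injective _ ht.ne' h1).symm

/-- ROW A1b. The same for the second derivative, from A1a. -/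
theorem fderiv2_smul {N : E → ℝ} (hN : EqNorm N) {t : ℝ} (ht : 0 < t) (x : E) :
    fderiv ℝ (fderiv ℝ N) (t • x) = t⁻¹ • fderiv ℝ (fderiv ℝ N) x := by
  have h1 : fderiv ℝ (fun y => fderiv ℝ N (t • y)) x = t • fderiv ℝ (fderiv ℝ N) (t • x) := fderiv_comp_smul t
  have h2 : (fun y => fderiv ℝ N (t • y)) = fderiv ℝ N := by
    funext y
    exact fderiv_smul hN ht y
  rw [h2] at h1
  rw [h1, smul_smul, inv_mul_cancel₀ ht.ne', one_smul]

/-- ROW A1c. `N` is differentiable off 0 and so is `fderiv ℝ N`. (`ContDiffOn` on the open set `{x | x ≠ 0}`.) -/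
theorem hasFDerivAt_of {N : E → ℝ} (hC : ContDiffOn ℝ 2 N {x : E | x ≠ 0}) {x : E} (hx : x ≠ 0) :
    HasFDerivAt N (fderiv ℝ N x) x ∧
      HasFDerivAt (fderiv ℝ N) (fderiv ℝ (fderiv ℝ N) x) x := by
  have ho : IsOpen {x : E | x ≠ 0} := isOpen_ne
  have h : ContDiffAt ℝ 2 N x := hC.contDiffAt (ho.mem_nhds hx)
  refine ⟨(h.differentiableAt (by norm_num)).hasFDerivAt, ?_⟩
  have h2 : ContDiffAt ℝ 1 (fderiv ℝ N) x := h.fderiv_right (by norm_num)
  exact (h2.differentiableAt (by norm_num)).hasFDerivAt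

/-- ROW A1d. Subgradient inequality. `N` is convex, so for `0 < t ≤ 1`:
`N (x + t • h) - N x ≤ t * (N (x + h) - N x)` (`x + t • h = (1 - t) • x + t • (x + h)`); let `t → 0+`. -/
theorem sub_grad {N : E → ℝ} (hN : EqNorm N) (hC : ContDiffOn ℝ 2 N {x : E | x ≠ 0}) {x : E}
    (hx : x ≠ 0) (h : E) : fderiv ℝ N x h ≤ N (x + h) - N x := by
  have hd := (hasFDerivAt_of hC hx).1
  have hl : HasDerivAt (fun t : ℝ => N (x + t • h)) (fderiv ℝ N x h) 0 := hd.hasLineDerivAt h
  have ht := hl.tendsto_slope_zero_right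
  refine le_of_tendsto ht ?_
  have hm : Set.Ioc (0 : ℝ) 1 ∈ nhdsWithin (0 : ℝ) (Set.Ioi 0) := Ioc_mem_nhdsGT one_pos
  filter_upwards [hm] with t ht0
  have e1 : x + (0 + t) • h = (1 - t) • x + t • (x + h) := by
    rw [zero_add, smul_add, sub_smul, one_smul]; abel
  have h1 : N (x + (0 + t) • h) ≤ (1 - t) * N x + t * N (x + h) := by
    rw [e1]
    refine (hN.2.1 _ _).trans ?_
    rw [hN.2.2, hN.2.2, abs_of_nonneg (by linarith [ht0.2] : (0 : ℝ) ≤ 1 - t), abs_of_pos ht0.1]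
  have e0 : x + (0 : ℝ) • h = x := by rw [zero_smul, add_zero]
  rw [e0, smul_eq_mul, inv_mul_le_iff₀ ht0.1]
  linarith

/-- ROW A1e. From A1d with `h` and `-h`: `|fderiv ℝ N x h| ≤ N h`. -/
theorem abs_fderiv_le {N : E → ℝ} (hN : EqNorm N) (hC : ContDiffOn ℝ 2 N {x : E | x ≠ 0}) {x : E}
    (hx : x ≠ 0) (h : E) : |fderiv ℝ N x h| ≤ N h := by
  have h1 := sub_grad hN hC hx h
  have h2 := sub_grad hN hC hx (-h)
  have h3 := hN.2.1 x h
  have h4 := hN.2.1 x (-h)
  have h5 : N (-h) = N h := by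
    have := hN.2.2 (-1) h
    rw [neg_one_smul, abs_neg, abs_one, one_mul] at this
    exact this
  rw [map_neg] at h2
  rw [abs_le]
  constructor <;> linarith

end Pool.Agent.H47.SR
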