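import Pool.Agent.H47.SR.A1

/-!
# A2: the second derivative is bounded
-/

set_option autoImplicit false

namespace Pool.Agent.H47.SR

variable {E : Type*} [NormedAddCommGroup E] [NormedSpace ℝ E]

/-- ROW A2. Let `c ‖x‖ ≤ N x ≤ C ‖x‖` and let `η > 0` be such that `‖B x - B y‖ ≤ 1` for `x, y` on the sphere `{N = 1}` with
`‖x - y‖ ≤ η` (`B = fderiv ℝ (fderiv ℝ N)`). Let `N x = 1` and `‖h‖ ≤ 1`, `‖k‖ ≤ 1`; take `τ > 0` so small that `C τ ≤ 1/2` and
`z = (x + s h) / N (x + s h)` satisfies `‖z - x‖ ≤ η` for `0 ≤ s ≤ τ` (`|N (x + s h) - 1| ≤ C s`). Mean value theorem for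
`g s = fderiv ℝ N (x + s • h) k` on `[0, τ]` (`exists_hasDerivAt_eq_slope` or `image_norm...`): some `s` has
`B (x + s h) h k = (g τ - g 0) / τ`, so `|B (x + s h) h k| ≤ 2 C / τ` (`abs_fderiv_le`). By `fderiv2_smul`
`B z = N (x + s h) • B (x + s h)` and `N (x + s h) ≤ 3/2`, so `|B z h k| ≤ 3 C / τ` and `|B x h k| ≤ 1 + 3 C / τ`. This is for
all unit `h, k`, so `‖B x‖ ≤ 1 + 3 C / τ` on the sphere (`ContinuousLinearMap.opNorm_le_of_...` twice); for general `x ≠ 0` use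
`fderiv2_smul` with `t = (N x)⁻¹`: `B x = (N x)⁻¹ • B ((N x)⁻¹ • x)`, `‖x‖ / N x ≤ 1 / c`. -/
theorem exists_bdd {N : E → ℝ} (hN : EqNorm N) (hU : UnifC2 N) :
    ∃ C : ℝ, ∀ x : E, x ≠ 0 → ‖fderiv ℝ (fderiv ℝ N) x‖ * ‖x‖ ≤ C := by
  obtain ⟨⟨c, C, hc, hC, hb⟩, htri, hhom⟩ := id hN
  obtain ⟨hcd, huc⟩ := hU
  obtain ⟨η, hη, hu⟩ := (Metric.uniformContinuousOn_iff (α := E) (β := E →L[ℝ] E →L[ℝ] ℝ)).1 huc 1 one_pos
  set τ : ℝ := min (1 / (2 * C)) (η / (4 * (1 + C / c))) with hτ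
  have hCc : 0 < C / c := div_pos hC hc
  have hτ0 : 0 < τ := lt_min (by positivity) (by positivity)
  have hτ1 : C * τ ≤ 1 / 2 := by
    have h1 : τ ≤ 1 / (2 * C) := min_le_left _ _
    calc C * τ ≤ C * (1 / (2 * C)) := mul_le_mul_of_nonneg_left h1 hC.le
      _ = 1 / 2 := by field_simp
  have hτ2 : 2 * (τ * (1 + C / c)) < η := by
    have h1 : τ ≤ η / (4 * (1 + C / c)) := min_le_right _ _
    have h2 : τ * (1 + C / c) ≤ η / (4 * (1 + C / c)) * (1 + C / c) :=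
      mul_le_mul_of_nonneg_right h1 (by positivity)
    have h3 : η / (4 * (1 + C / c)) * (1 + C / c) = η / 4 := by
      field_simp
    linarith
  have hN0 : N 0 = 0 := by
    have h1 := hhom 0 0
    rwa [zero_smul, abs_zero, zero_mul] at h1
  have hneg : ∀ x, N (-x) = N x := by
    intro x
    have h1 := hhom (-1) x
    rwa [neg_one_smul, abs_neg, abs_one, one_mul] at h1
  have hnn : ∀ x, 0 ≤ N x := fun x => (mul_nonneg hc.le (norm_nonneg x)).trans (hb x).1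
  -- the sphere
  have key : ∀ x : E, N x = 1 → ‖fderiv ℝ (fderiv ℝ N) x‖ ≤ 1 + 3 * C / τ := by
    intro x hx
    have hxn : ‖x‖ ≤ 1 / c := by
      rw [le_div_iff₀ hc, mul_comm]
      exact (hb x).1.trans hx.le
    have hM : 0 ≤ 1 + 3 * C / τ := by positivity
    refine ContinuousLinearMap.opNorm_le_of_unit_norm hM fun h hh => ?_
    refine ContinuousLinearMap.opNorm_le_of_unit_norm hM fun k hk => ?_
    -- points on the segment
    have hseg : ∀ s : ℝ, 0 ≤ s → s ≤ τ → |N (x + s • h) - 1| ≤ C * s := by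
      intro s hs0 hs1
      have h1 : N (s • h) ≤ C * s := by
        rw [hhom, abs_of_nonneg hs0]
        have := (hb h).2
        rw [hh, mul_one] at this
        nlinarith
      have h2 := htri x (s • h)
      have h3 := htri (x + s • h) (-(s • h))
      rw [add_neg_cancel_right, hneg] at h3
      rw [hx] at h2 h3
      rw [abs_le]
      constructor <;> linarith
    have hpos : ∀ s : ℝ, 0 ≤ s → s ≤ τ → 1 / 2 ≤ N (x + s • h) ∧ N (x + s • h) ≤ 3 / 2 := by
      intro s hs0 hs1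
      have h1 := abs_le.1 (hseg s hs0 hs1)
      have h2 : C * s ≤ 1 / 2 := (mul_le_mul_of_nonneg_left hs1 hC.le).trans hτ1
      constructor <;> linarith [h1.1, h1.2]
    have hne : ∀ s : ℝ, 0 ≤ s → s ≤ τ → x + s • h ≠ 0 := by
      intro s hs0 hs1 h0
      have h1 := (hpos s hs0 hs1).1
      rw [h0, hN0] at h1
      linarith
    have hder : ∀ s : ℝ, 0 ≤ s → s ≤ τ →
        HasDerivAt (fun s : ℝ => fderiv ℝ N (x + s • h) k)
          (fderiv ℝ (fderiv ℝ N) (x + s • h) h k) s := by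
      intro s hs0 hs1
      have h1 := (hasFDerivAt_of hcd (hne s hs0 hs1)).2
      have h2 : HasDerivAt (fun s : ℝ => x + s • h) h s := by
        have := ((hasDerivAt_id s).smul_const h).const_add x
        simpa using this
      have h3 := h1.comp_hasDerivAt s h2
      have h4 := (ContinuousLinearMap.apply ℝ ℝ k).hasFDerivAt.comp_hasDerivAt s h3
      exact h4
    obtain ⟨s, ⟨hs0, hs1⟩, hs⟩ := exists_hasDerivAt_eq_slope
      (fun s : ℝ => fderiv ℝ N (x + s • h) k)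
      (fun s : ℝ => fderiv ℝ (fderiv ℝ N) (x + s • h) h k) hτ0
      (fun s hs => (hder s hs.1 hs.2).continuousAt.continuousWithinAt)
      (fun s hs => hder s hs.1.le hs.2.le)
    have hkN : N k ≤ C := by
      have := (hb k).2
      rwa [hk, mul_one] at this
    have b1 : |fderiv ℝ N (x + τ • h) k| ≤ C :=
      (abs_fderiv_le hN hcd (hne τ hτ0.le le_rfl) k).trans hkN
    have b2 : |fderiv ℝ N (x + (0 : ℝ) • h) k| ≤ C :=
      (abs_fderiv_le hN hcd (hne 0 le_rfl hτ0.le) k).trans hkN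
    have b3 : |fderiv ℝ (fderiv ℝ N) (x + s • h) h k| ≤ 2 * C / τ := by
      rw [hs, sub_zero, abs_div, abs_of_pos hτ0]
      refine div_le_div_of_nonneg_right ?_ hτ0.le
      calc |fderiv ℝ N (x + τ • h) k - fderiv ℝ N (x + (0 : ℝ) • h) k|
          ≤ |fderiv ℝ N (x + τ • h) k| + |fderiv ℝ N (x + (0 : ℝ) • h) k| := abs_sub _ _
        _ ≤ 2 * C := by linarith
    set y := x + s • h with hy
    obtain ⟨p1, p2⟩ := hpos s hs0.le hs1.le
    have hNy : 0 < N y := by linarith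
    have hz1 : N ((N y)⁻¹ • y) = 1 := by
      rw [hhom, abs_of_pos (inv_pos.2 hNy), inv_mul_cancel₀ hNy.ne']
    have hzx : dist x ((N y)⁻¹ • y) < η := by
      rw [dist_comm, dist_eq_norm]
      have e : (N y)⁻¹ • y - x = (N y)⁻¹ • (s • h + (1 - N y) • x) := by
        have e1 : x = (N y)⁻¹ • (N y • x) := by rw [smul_smul, inv_mul_cancel₀ hNy.ne', one_smul]
        have e2 : y = x + s • h := hy
        calc (N y)⁻¹ • y - x = (N y)⁻¹ • y - (N y)⁻¹ • (N y • x) := by rw [← e1]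
          _ = (N y)⁻¹ • (y - N y • x) := by rw [smul_sub]
          _ = (N y)⁻¹ • (s • h + (1 - N y) • x) := by
            congr 1
            rw [sub_smul, one_smul]
            nth_rewrite 1 [e2]
            abel
      rw [e, norm_smul, norm_inv, Real.norm_eq_abs, abs_of_pos hNy]
      have i1 : (N y)⁻¹ ≤ 2 := by
        rw [inv_le_comm₀ hNy (by norm_num)]
        linarith
      have i2 : ‖s • h + (1 - N y) • x‖ ≤ s + C * s * (1 / c) := by
        refine (norm_add_le _ _).trans ?_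
        rw [norm_smul, norm_smul, hh, mul_one, Real.norm_eq_abs, Real.norm_eq_abs, abs_of_pos hs0,
          abs_sub_comm]
        have := hseg s hs0.le hs1.le
        have i3 : |N y - 1| * ‖x‖ ≤ C * s * (1 / c) :=
          mul_le_mul this hxn (norm_nonneg _) (by positivity)
        linarith
      have i4 : s + C * s * (1 / c) = s * (1 + C / c) := by ring
      rw [i4] at i2
      have i5 : s * (1 + C / c) ≤ τ * (1 + C / c) :=
        mul_le_mul_of_nonneg_right hs1.le (by positivity)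
      calc (N y)⁻¹ * ‖s • h + (1 - N y) • x‖ ≤ 2 * (τ * (1 + C / c)) :=
            mul_le_mul i1 (i2.trans i5) (norm_nonneg _) (by norm_num)
        _ < η := hτ2
    have hB : ‖fderiv ℝ (fderiv ℝ N) x - fderiv ℝ (fderiv ℝ N) ((N y)⁻¹ • y)‖ ≤ 1 := by
      have := hu x hx _ hz1 hzx
      rw [dist_eq_norm (E := E →L[ℝ] E →L[ℝ] ℝ)] at this
      exact this.le
    have hBz : fderiv ℝ (fderiv ℝ N) ((N y)⁻¹ • y) = N y • fderiv ℝ (fderiv ℝ N) y := by
      rw [fderiv2_smul hN (inv_pos.2 hNy), inv_inv]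
    have b4 : |fderiv ℝ (fderiv ℝ N) ((N y)⁻¹ • y) h k| ≤ 3 * C / τ := by
      rw [hBz]
      simp only [ContinuousLinearMap.smul_apply, smul_eq_mul]
      rw [abs_mul, abs_of_pos hNy]
      have : N y * |fderiv ℝ (fderiv ℝ N) y h k| ≤ 3 / 2 * (2 * C / τ) :=
        mul_le_mul p2 b3 (abs_nonneg _) (by norm_num)
      refine this.trans (le_of_eq ?_)
      ring
    have b5 : |(fderiv ℝ (fderiv ℝ N) x - fderiv ℝ (fderiv ℝ N) ((N y)⁻¹ • y)) h k| ≤ 1 := by
      have h1 := ContinuousLinearMap.le_opNorm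
        ((fderiv ℝ (fderiv ℝ N) x - fderiv ℝ (fderiv ℝ N) ((N y)⁻¹ • y)) h) k
      have h2 := ContinuousLinearMap.le_opNorm
        (fderiv ℝ (fderiv ℝ N) x - fderiv ℝ (fderiv ℝ N) ((N y)⁻¹ • y)) h
      rw [hk, mul_one] at h1
      rw [hh, mul_one] at h2
      rw [← Real.norm_eq_abs]
      exact h1.trans (h2.trans hB)
    rw [Real.norm_eq_abs]
    have e6 : fderiv ℝ (fderiv ℝ N) x h k =
        (fderiv ℝ (fderiv ℝ N) x - fderiv ℝ (fderiv ℝ N) ((N y)⁻¹ • y)) h k +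
          fderiv ℝ (fderiv ℝ N) ((N y)⁻¹ • y) h k := by
      simp only [ContinuousLinearMap.sub_apply]
      ring
    rw [e6]
    exact (abs_add_le _ _).trans (add_le_add b5 b4)
  refine ⟨(1 + 3 * C / τ) / c, fun x hx => ?_⟩
  have hxn : 0 < ‖x‖ := norm_pos_iff.2 hx
  have hNx : 0 < N x := lt_of_lt_of_le (mul_pos hc hxn) (hb x).1
  have hz : N ((N x)⁻¹ • x) = 1 := by
    rw [hhom, abs_of_pos (inv_pos.2 hNx), inv_mul_cancel₀ hNx.ne']
  have h1 := key _ hz
  have e : fderiv ℝ (fderiv ℝ N) x = (N x)⁻¹ • fderiv ℝ (fderiv ℝ N) ((N x)⁻¹ • x) := by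
    rw [fderiv2_smul hN (inv_pos.2 hNx), inv_inv, smul_smul, inv_mul_cancel₀ hNx.ne', one_smul]
  have e' : ‖fderiv ℝ (fderiv ℝ N) x‖ ≤ (N x)⁻¹ * ‖fderiv ℝ (fderiv ℝ N) ((N x)⁻¹ • x)‖ := by
    have h5 := ContinuousLinearMap.opNorm_smul_le (N x)⁻¹ (fderiv ℝ (fderiv ℝ N) ((N x)⁻¹ • x))
    rw [← e, norm_inv, Real.norm_eq_abs, abs_of_pos hNx] at h5
    exact h5
  rw [le_div_iff₀ hc]
  have h2 : ‖x‖ * c ≤ N x := by
    rw [mul_comm]
    exact (hb x).1
  have h3 : (0 : ℝ) ≤ 1 + 3 * C / τ := by positivity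
  calc ‖fderiv ℝ (fderiv ℝ N) x‖ * ‖x‖ * c
      ≤ (N x)⁻¹ * ‖fderiv ℝ (fderiv ℝ N) ((N x)⁻¹ • x)‖ * ‖x‖ * c :=
        mul_le_mul_of_nonneg_right (mul_le_mul_of_nonneg_right e' (norm_nonneg _)) hc.le
    _ = ‖fderiv ℝ (fderiv ℝ N) ((N x)⁻¹ • x)‖ * (‖x‖ * c) * (N x)⁻¹ := by ring
    _ ≤ (1 + 3 * C / τ) * N x * (N x)⁻¹ :=
        mul_le_mul_of_nonneg_right (mul_le_mul h1 h2 (by positivity) h3) (inv_pos.2 hNx).le
    _ = 1 + 3 * C / τ := by rw [mul_assoc, mul_inv_cancel₀ hNx.ne', mul_one]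

end Pool.Agent.H47.SR
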