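import Pool.Agent.H47.SR.A2

/-!
# A3: every norm as in the conclusion satisfies each quantitative condition for some `k`
-/

set_option autoImplicit false
set_option linter.unusedSectionVars false

namespace Pool.Agent.H47.SR

variable {E : Type*} [NormedAddCommGroup E] [NormedSpace ℝ E]

theorem abs_sub_le_N {N : E → ℝ} (hN : EqNorm N) (x y : E) : |N x - N y| ≤ N (x - y) := by
  obtain ⟨_, htri, hhom⟩ := hN
  have h1 := htri (x - y) y
  rw [sub_add_cancel] at h1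
  have h2 := htri (y - x) x
  rw [sub_add_cancel] at h2
  have h3 : N (y - x) = N (x - y) := by
    have := hhom (-1) (x - y)
    rw [neg_one_smul, neg_sub, abs_neg, abs_one, one_mul] at this
    exact this
  rw [abs_le]
  constructor <;> linarith

theorem unif_gen {G : Type*} [NormedAddCommGroup G] {F : E → G} {s : Set E} (h : UniformContinuousOn F s)
    {ε : ℝ} (hε : 0 < ε) : ∃ δ : ℝ, 0 < δ ∧ ∀ x ∈ s, ∀ y ∈ s, ‖x - y‖ < δ → ‖F x - F y‖ < ε := by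
  obtain ⟨δ, hδ, h2⟩ := Metric.uniformContinuousOn_iff.1 h ε hε
  refine ⟨δ, hδ, fun x hx y hy hxy => ?_⟩
  have := h2 x hx y hy (by rwa [dist_eq_norm])
  rwa [dist_eq_norm] at this

theorem nn_gen {G : Type*} [NormedAddCommGroup G] (A : G) : 0 ≤ ‖A‖ := norm_nonneg A

theorem key_gen {G : Type*} [NormedAddCommGroup G] [NormedSpace ℝ G] (A B : G) {a : ℝ} (ha : 0 < a) (b : ℝ) :
    a * ‖A - B‖ ≤ ‖a • A - b • B‖ + |b - a| * ‖B‖ := by
  have e3 : a • (A - B) = (a • A - b • B) + (b - a) • B := by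
    rw [smul_sub, sub_smul]
    abel
  have h6 : a * ‖A - B‖ = ‖a • (A - B)‖ := by
    rw [norm_smul, Real.norm_eq_abs, abs_of_pos ha]
  rw [h6, e3]
  refine (norm_add_le _ _).trans ?_
  rw [norm_smul (b - a) B, Real.norm_eq_abs]

/-- ROW A3a. Let `‖B x‖ ‖x‖ ≤ C₁` (`exists_bdd`), `c ‖x‖ ≤ N x ≤ C ‖x‖`. For `‖x - y‖ ≤ η ‖x‖`, `η ≤ 1/2` (so `y ≠ 0`,
`‖y‖ ≥ ‖x‖ / 2`), put `x' = (N x)⁻¹ • x`, `y' = (N y)⁻¹ • y`. Then `‖x' - y'‖ ≤ ‖x - y‖ / N x + (‖y‖ / N y) N (x - y) / N x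
≤ η (1 / c) (1 + C / c)`, so `‖B x' - B y'‖ ≤ ε` for small `η` by uniform continuity; `N x • B x = B x'`, `N y • B y = B y'`
(`fderiv2_smul`); `N x • (B x - B y) = (B x' - B y') + (N y - N x) • B y` and `|N y - N x| ‖B y‖ ≤ C ‖x - y‖ C₁ / ‖y‖ ≤ 2 C C₁ η`.
Multiply by `‖x‖ / N x ≤ 1 / c`. -/
theorem exists_cnt {N : E → ℝ} (hN : EqNorm N) (hU : UnifC2 N) {ε : ℝ} (hε : 0 < ε) :
    ∃ η : ℝ, 0 < η ∧ ∀ x y : E, x ≠ 0 → ‖x - y‖ ≤ η * ‖x‖ →
      ‖fderiv ℝ (fderiv ℝ N) x - fderiv ℝ (fderiv ℝ N) y‖ * ‖x‖ ≤ ε := by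
  obtain ⟨C₀, hC₀⟩ := exists_bdd hN hU
  have hN' := hN
  obtain ⟨⟨c, C, hc, hC, hcC⟩, htri, hhom⟩ := hN'
  set C₁ := max C₀ 1 with hC₁
  have hC₁0 : 0 < C₁ := lt_of_lt_of_le one_pos (le_max_right _ _)
  have hbd : ∀ x : E, x ≠ 0 → ‖fderiv ℝ (fderiv ℝ N) x‖ * ‖x‖ ≤ C₁ := fun x hx =>
    (hC₀ x hx).trans (le_max_left _ _)
  obtain ⟨δ, hδ, hδ2⟩ : ∃ δ : ℝ, 0 < δ ∧ ∀ x ∈ {y : E | N y = 1}, ∀ y ∈ {y : E | N y = 1}, ‖x - y‖ < δ →
      ‖fderiv ℝ (fderiv ℝ N) x - fderiv ℝ (fderiv ℝ N) y‖ < c * ε / 2 :=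
    unif_gen (G := E →L[ℝ] E →L[ℝ] ℝ) hU.2 (by positivity)
  set K := 1 / c + C / (c * c) with hK
  have hK0 : 0 < K := by positivity
  refine ⟨min (1 / 2) (min (δ / (2 * K)) (c * ε / (4 * C * C₁))), by positivity, ?_⟩
  intro x y hx hxy
  set η := min (1 / 2) (min (δ / (2 * K)) (c * ε / (4 * C * C₁))) with hη
  have hη0 : 0 < η := by positivity
  have hη1 : η ≤ 1 / 2 := min_le_left _ _
  have hη2 : η ≤ δ / (2 * K) := (min_le_right _ _).trans (min_le_left _ _)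
  have hη3 : η ≤ c * ε / (4 * C * C₁) := (min_le_right _ _).trans (min_le_right _ _)
  have hnx : 0 < ‖x‖ := norm_pos_iff.2 hx
  have hxy2 : ‖x - y‖ ≤ ‖x‖ / 2 := by
    refine hxy.trans ?_
    have := mul_le_mul_of_nonneg_right hη1 hnx.le
    linarith
  have hny : ‖x‖ / 2 ≤ ‖y‖ := by
    have h1 : ‖x‖ ≤ ‖x - y‖ + ‖y‖ := by
      have := norm_add_le (x - y) y
      rwa [sub_add_cancel] at this
    linarith
  have hny0 : 0 < ‖y‖ := by linarith
  have hy : y ≠ 0 := norm_pos_iff.1 hny0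
  have hNx : 0 < N x := lt_of_lt_of_le (by positivity) (hcC x).1
  have hNy : 0 < N y := lt_of_lt_of_le (by positivity) (hcC y).1
  have hrx : ‖x‖ / N x ≤ 1 / c := by
    rw [div_le_div_iff₀ hNx hc]
    have := (hcC x).1
    linarith
  have hry : ‖y‖ / N y ≤ 1 / c := by
    rw [div_le_div_iff₀ hNy hc]
    have := (hcC y).1
    linarith
  have hNxy : |N y - N x| ≤ C * (η * ‖x‖) := by
    rw [abs_sub_comm]
    refine (abs_sub_le_N hN x y).trans (((hcC _).2).trans ?_)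
    exact mul_le_mul_of_nonneg_left hxy hC.le
  -- the normalised vectors
  have hdist : ‖(N x)⁻¹ • x - (N y)⁻¹ • y‖ ≤ η * K := by
    have e1 : (N x)⁻¹ • x - (N y)⁻¹ • y = (N x)⁻¹ • (x - y) + ((N x)⁻¹ - (N y)⁻¹) • y := by
      rw [smul_sub, sub_smul]
      abel
    have h1 : ‖(N x)⁻¹ • (x - y)‖ ≤ η * (1 / c) := by
      rw [norm_smul, Real.norm_eq_abs, abs_of_pos (inv_pos.2 hNx)]
      calc (N x)⁻¹ * ‖x - y‖ ≤ (N x)⁻¹ * (η * ‖x‖) := mul_le_mul_of_nonneg_left hxy (inv_pos.2 hNx).le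
        _ = η * (‖x‖ / N x) := by
          rw [div_eq_mul_inv]
          ring
        _ ≤ η * (1 / c) := mul_le_mul_of_nonneg_left hrx hη0.le
    have h2 : ‖((N x)⁻¹ - (N y)⁻¹) • y‖ ≤ η * (C / (c * c)) := by
      rw [norm_smul, Real.norm_eq_abs]
      have e2 : (N x)⁻¹ - (N y)⁻¹ = (N y - N x) * ((N x)⁻¹ * (N y)⁻¹) := by
        field_simp
      rw [e2, abs_mul, abs_of_pos (mul_pos (inv_pos.2 hNx) (inv_pos.2 hNy))]
      calc |N y - N x| * ((N x)⁻¹ * (N y)⁻¹) * ‖y‖ ≤ C * (η * ‖x‖) * ((N x)⁻¹ * (N y)⁻¹) * ‖y‖ := by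
            apply mul_le_mul_of_nonneg_right _ hny0.le
            exact mul_le_mul_of_nonneg_right hNxy (mul_pos (inv_pos.2 hNx) (inv_pos.2 hNy)).le
        _ = C * η * ((‖x‖ / N x) * (‖y‖ / N y)) := by
          rw [div_eq_mul_inv, div_eq_mul_inv]
          ring
        _ ≤ C * η * ((1 / c) * (1 / c)) := by
          apply mul_le_mul_of_nonneg_left _ (mul_pos hC hη0).le
          exact mul_le_mul hrx hry (div_nonneg hny0.le hNy.le) (by positivity)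
        _ = η * (C / (c * c)) := by
          field_simp
    calc ‖(N x)⁻¹ • x - (N y)⁻¹ • y‖ ≤ ‖(N x)⁻¹ • (x - y)‖ + ‖((N x)⁻¹ - (N y)⁻¹) • y‖ := by
          rw [e1]
          exact norm_add_le _ _
      _ ≤ η * (1 / c) + η * (C / (c * c)) := add_le_add h1 h2
      _ = η * K := by
        rw [hK]
        ring
  have hηK : η * K < δ := by
    have h1 : η * K ≤ δ / (2 * K) * K := mul_le_mul_of_nonneg_right hη2 hK0.le
    have h2 : δ / (2 * K) * K = δ / 2 := by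
      field_simp
    linarith
  have hNs : ∀ z : E, 0 < N z → N ((N z)⁻¹ • z) = 1 := by
    intro z hz
    rw [hhom, abs_of_pos (inv_pos.2 hz), inv_mul_cancel₀ hz.ne']
  have hBB := hδ2 ((N x)⁻¹ • x) (hNs x hNx) ((N y)⁻¹ • y) (hNs y hNy) (lt_of_le_of_lt hdist hηK)
  rw [fderiv2_smul hN (inv_pos.2 hNx), fderiv2_smul hN (inv_pos.2 hNy), inv_inv, inv_inv]
    at hBB
  set Bx := fderiv ℝ (fderiv ℝ N) x with hBx
  set By := fderiv ℝ (fderiv ℝ N) y with hBy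
  have h6 : N x * ‖Bx - By‖ ≤ ‖N x • Bx - N y • By‖ + |N y - N x| * ‖By‖ :=
    key_gen (G := E →L[ℝ] E →L[ℝ] ℝ) Bx By hNx (N y)
  have hByn : 0 ≤ ‖By‖ := nn_gen (G := E →L[ℝ] E →L[ℝ] ℝ) By
  have h5 : N x * ‖Bx - By‖ ≤ c * ε := by
    have h7 : |N y - N x| * ‖By‖ ≤ c * ε / 2 := by
      have h8 : ‖By‖ * ‖x‖ ≤ 2 * C₁ := by
        have h9 := hbd y hy
        have h10 : ‖By‖ * ‖x‖ ≤ ‖By‖ * (2 * ‖y‖) :=
          mul_le_mul_of_nonneg_left (by linarith) hByn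
        linarith
      calc |N y - N x| * ‖By‖ ≤ C * (η * ‖x‖) * ‖By‖ := mul_le_mul_of_nonneg_right hNxy hByn
        _ = C * η * (‖By‖ * ‖x‖) := by ring
        _ ≤ C * η * (2 * C₁) := mul_le_mul_of_nonneg_left h8 (mul_pos hC hη0).le
        _ ≤ C * (c * ε / (4 * C * C₁)) * (2 * C₁) := by
          apply mul_le_mul_of_nonneg_right _ (by positivity)
          exact mul_le_mul_of_nonneg_left hη3 hC.le
        _ = c * ε / 2 := by
          field_simp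
          ring
    linarith
  have h11 : ‖Bx - By‖ * ‖x‖ = (N x * ‖Bx - By‖) * (‖x‖ / N x) := by
    field_simp
  rw [h11]
  calc (N x * ‖Bx - By‖) * (‖x‖ / N x) ≤ (c * ε) * (1 / c) :=
        mul_le_mul h5 hrx (div_nonneg hnx.le hNx.le) (by positivity)
    _ = ε := by
      field_simp

/-- ROW A3b. Each of the five conditions holds for all large `k`; take the maximum (`exists_nat_gt`). -/
theorem exists_cond {N : E → ℝ} (hN : PNorm N) (i : ℕ) : ∃ k : ℕ, Cond i k N := by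
  obtain ⟨hE, hUC, hU⟩ := hN
  obtain ⟨C₁, hC₁⟩ := exists_bdd hE hU
  obtain ⟨η, hη, hη2⟩ := exists_cnt hE hU (ε := 1 / ((i : ℝ) + 1)) (by positivity)
  obtain ⟨δ, hδ, hδ2⟩ := hUC (1 / ((i : ℝ) + 1)) (by positivity)
  obtain ⟨⟨c, C, hc, hC, hcC⟩, htri, hhom⟩ := hE
  obtain ⟨k, hk⟩ := exists_nat_gt (max (max (1 / c) C) (max C₁ (max (1 / δ) (1 / η))))
  have h1 : 1 / c < k := lt_of_le_of_lt ((le_max_left _ _).trans (le_max_left _ _)) hk
  have h2 : C < k := lt_of_le_of_lt ((le_max_right _ _).trans (le_max_left _ _)) hk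
  have h3 : C₁ < k := lt_of_le_of_lt ((le_max_left _ _).trans (le_max_right _ _)) hk
  have h4 : 1 / δ < k :=
    lt_of_le_of_lt (((le_max_left _ _).trans (le_max_right _ _)).trans (le_max_right _ _)) hk
  have h5 : 1 / η < k :=
    lt_of_le_of_lt (((le_max_right _ _).trans (le_max_right _ _)).trans (le_max_right _ _)) hk
  refine ⟨k, ⟨?_, ?_, ?_, ?_, ?_⟩⟩
  · intro x
    have h6 := (hcC x).1
    have h7 : 0 ≤ N x := le_trans (by positivity) h6
    have h8 : 1 ≤ k * c := by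
      rw [div_lt_iff₀ hc] at h1
      exact h1.le
    calc ‖x‖ ≤ (k * c) * ‖x‖ := le_mul_of_one_le_left (norm_nonneg _) h8
      _ = k * (c * ‖x‖) := by ring
      _ ≤ k * N x := mul_le_mul_of_nonneg_left h6 (Nat.cast_nonneg k)
      _ ≤ ((k : ℝ) + 1) * N x := mul_le_mul_of_nonneg_right (by linarith) h7
  · intro x
    refine ((hcC x).2).trans ?_
    exact mul_le_mul_of_nonneg_right (by linarith) (norm_nonneg _)
  · intro x hx
    have := hC₁ x hx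
    linarith
  · intro x y hx hy hxy
    have h6 := hδ2 x y hx hy hxy
    have h7 : 1 / ((k : ℝ) + 1) ≤ δ := by
      rw [div_le_iff₀ (by positivity)]
      rw [div_lt_iff₀ hδ] at h4
      have : δ * ((k : ℝ) + 1) = k * δ + δ := by ring
      rw [this]
      linarith
    linarith
  · intro x y hx hxy
    apply hη2 x y hx
    refine hxy.trans ?_
    rw [div_le_iff₀ (by positivity)]
    rw [div_lt_iff₀ hη] at h5
    have h6 : 1 ≤ η * ((k : ℝ) + 2) := by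
      have : η * ((k : ℝ) + 2) = k * η + 2 * η := by ring
      rw [this]
      linarith
    calc ‖x‖ ≤ (η * ((k : ℝ) + 2)) * ‖x‖ := le_mul_of_one_le_left (norm_nonneg _) h6
      _ = η * ‖x‖ * ((k : ℝ) + 2) := by ring

end Pool.Agent.H47.SR
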