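import Pool.Agent.H47.SR.Df

/-!
# B1: restriction to a subspace
-/

set_option autoImplicit false

namespace Pool.Agent.H47.SR

variable {E : Type*} [NormedAddCommGroup E] [NormedSpace ℝ E]
variable {F : Type*} [NormedAddCommGroup F] [NormedSpace ℝ F]

theorem EqNorm.comp {N : F → ℝ} (hN : EqNorm N) (g : E →ₗᵢ[ℝ] F) : EqNorm (fun x => N (g x)) := by
  obtain ⟨⟨c, C, hc, hC, h1⟩, h2, h3⟩ := hN
  refine ⟨⟨c, C, hc, hC, fun x => ?_⟩, fun x y => ?_, fun t x => ?_⟩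
  · have := h1 (g x)
    rwa [g.norm_map] at this
  · simpa using h2 (g x) (g y)
  · simpa using h3 t (g x)

theorem UConv.comp {N : F → ℝ} (hN : UConv N) (g : E →ₗᵢ[ℝ] F) : UConv (fun x => N (g x)) := by
  intro ε hε
  obtain ⟨δ, hδ, h⟩ := hN ε hε
  refine ⟨δ, hδ, fun x y hx hy hxy => ?_⟩
  have := h (g x) (g y) hx hy (by simpa using hxy)
  simpa using this

/-- ROW B1a. -/
theorem contDiffOn_comp {N : F → ℝ} (hN : ContDiffOn ℝ 2 N {x : F | x ≠ 0}) (g : E →ₗᵢ[ℝ] F) :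
    ContDiffOn ℝ 2 (fun x => N (g x)) {x : E | x ≠ 0} := by
  refine hN.comp g.contDiff.contDiffOn fun x hx => ?_
  show g x ≠ 0
  intro h
  exact hx (g.injective (h.trans (map_zero g).symm))

private theorem ne_map (g : E →ₗᵢ[ℝ] F) {x : E} (hx : x ≠ 0) : g x ≠ 0 := fun h =>
  hx (g.injective (h.trans (map_zero g).symm))

private theorem cdAt {N : F → ℝ} (hN : ContDiffOn ℝ 2 N {x : F | x ≠ 0}) {y : F} (hy : y ≠ 0) :
    ContDiffAt ℝ 2 N y := hN.contDiffAt (isOpen_ne.mem_nhds hy)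

private theorem fderiv1 {N : F → ℝ} (hN : ContDiffOn ℝ 2 N {x : F | x ≠ 0}) (g : E →ₗᵢ[ℝ] F) {x : E}
    (hx : x ≠ 0) : fderiv ℝ (fun x => N (g x)) x =
      (fderiv ℝ N (g x)).comp g.toContinuousLinearMap := by
  have h1 : HasFDerivAt N (fderiv ℝ N (g x)) (g x) :=
    ((cdAt hN (ne_map g hx)).differentiableAt (by norm_num)).hasFDerivAt
  have h2 : HasFDerivAt (fun x => g x) g.toContinuousLinearMap x :=
    g.toContinuousLinearMap.hasFDerivAt
  exact (h1.comp x h2).fderiv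

/-- ROW B1b. Chain rule twice: `fderiv ℝ (fun x => N (g x)) y = (fderiv ℝ N (g y)).comp g` for `y ≠ 0` (an open set, so eventually
near `x`), and this map is `(precomposition with g) ∘ fderiv ℝ N ∘ g`. -/
theorem fderiv2_comp {N : F → ℝ} (hN : ContDiffOn ℝ 2 N {x : F | x ≠ 0}) (g : E →ₗᵢ[ℝ] F) {x : E}
    (hx : x ≠ 0) (h k : E) :
    fderiv ℝ (fderiv ℝ (fun x => N (g x))) x h k = fderiv ℝ (fderiv ℝ N) (g x) (g h) (g k) := by
  have hev : fderiv ℝ (fun x => N (g x)) =ᶠ[nhds x]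
      fun y => (fderiv ℝ N (g y)).comp g.toContinuousLinearMap := by
    filter_upwards [isOpen_ne.mem_nhds hx] with y hy
    exact fderiv1 hN g hy
  have h1 : HasFDerivAt (fderiv ℝ N) (fderiv ℝ (fderiv ℝ N) (g x)) (g x) := by
    have h3 : ContDiffAt ℝ 1 (fderiv ℝ N) (g x) :=
      (cdAt hN (ne_map g hx)).fderiv_right (by norm_num)
    exact (h3.differentiableAt (by norm_num)).hasFDerivAt
  have h2 : HasFDerivAt (fun x => g x) g.toContinuousLinearMap x :=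
    g.toContinuousLinearMap.hasFDerivAt
  have h4 := h1.comp x h2
  have h5 := (((ContinuousLinearMap.compL ℝ E F ℝ).flip
    g.toContinuousLinearMap).hasFDerivAt (x := fderiv ℝ N (g x))).comp x h4
  have h6 : HasFDerivAt (fun y => (fderiv ℝ N (g y)).comp g.toContinuousLinearMap) _ x := h5
  rw [hev.fderiv_eq, h6.fderiv]
  rfl

/-- ROW B1c. From B1b: operator norms. (`ContinuousLinearMap.opNorm_le_bound` twice.) -/
theorem norm_fderiv2_comp_sub_le {N : F → ℝ} (hN : ContDiffOn ℝ 2 N {x : F | x ≠ 0})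
    (g : E →ₗᵢ[ℝ] F) {x y : E} (hx : x ≠ 0) (hy : y ≠ 0) :
    ‖fderiv ℝ (fderiv ℝ (fun x => N (g x))) x - fderiv ℝ (fderiv ℝ (fun x => N (g x))) y‖ ≤
      ‖fderiv ℝ (fderiv ℝ N) (g x) - fderiv ℝ (fderiv ℝ N) (g y)‖ := by
  refine ContinuousLinearMap.opNorm_le_bound _ (by positivity) fun h => ?_
  refine ContinuousLinearMap.opNorm_le_bound _ (by positivity) fun k => ?_
  rw [_root_.sub_apply, _root_.sub_apply, fderiv2_comp hN g hx, fderiv2_comp hN g hy]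
  have h1 := (fderiv ℝ (fderiv ℝ N) (g x) - fderiv ℝ (fderiv ℝ N) (g y)).le_opNorm₂ (g h) (g k)
  rw [_root_.sub_apply, _root_.sub_apply, g.norm_map, g.norm_map] at h1
  exact h1

theorem norm_fderiv2_comp_le {N : F → ℝ} (hN : ContDiffOn ℝ 2 N {x : F | x ≠ 0})
    (g : E →ₗᵢ[ℝ] F) {x : E} (hx : x ≠ 0) :
    ‖fderiv ℝ (fderiv ℝ (fun x => N (g x))) x‖ ≤ ‖fderiv ℝ (fderiv ℝ N) (g x)‖ := by
  refine ContinuousLinearMap.opNorm_le_bound _ (by positivity) fun h => ?_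
  refine ContinuousLinearMap.opNorm_le_bound _ (by positivity) fun k => ?_
  rw [fderiv2_comp hN g hx]
  have h1 := (fderiv ℝ (fderiv ℝ N) (g x)).le_opNorm₂ (g h) (g k)
  rw [g.norm_map, g.norm_map] at h1
  exact h1

end Pool.Agent.H47.SR
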