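import Pool.Agent.H47.SR.B1

/-!
# B2: restriction to a subspace, continued
-/

set_option autoImplicit false

namespace Pool.Agent.H47.SR

variable {E : Type*} [NormedAddCommGroup E] [NormedSpace ℝ E]
variable {F : Type*} [NormedAddCommGroup F] [NormedSpace ℝ F]

/-- ROW B2a. Points of the sphere `{N = 1}` are not 0. Uniform continuity on a set `s` with `0 ∉ s` is inherited with
`norm_fderiv2_comp_sub_le` and `g.isometry` (`Metric.uniformContinuousOn_iff`). -/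
theorem uc_comp {N : F → ℝ} (hN : ContDiffOn ℝ 2 N {x : F | x ≠ 0}) (g : E →ₗᵢ[ℝ] F) (s : Set F)
    (hs : (0 : F) ∉ s) (hU : UniformContinuousOn (fderiv ℝ (fderiv ℝ N)) s) :
    UniformContinuousOn (fderiv ℝ (fderiv ℝ (fun x => N (g x)))) (g ⁻¹' s) := by
  refine (Metric.uniformContinuousOn_iff (α := E) (β := E →L[ℝ] E →L[ℝ] ℝ)).2 ?_
  intro ε hε
  obtain ⟨δ, hδ, h⟩ :=
    (Metric.uniformContinuousOn_iff (α := F) (β := F →L[ℝ] F →L[ℝ] ℝ)).1 hU ε hε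
  refine ⟨δ, hδ, fun x hx y hy hxy => ?_⟩
  have hx0 : x ≠ 0 := by
    rintro rfl
    exact hs (by simpa using hx)
  have hy0 : y ≠ 0 := by
    rintro rfl
    exact hs (by simpa using hy)
  have h1 := h (g x) hx (g y) hy (by rwa [g.isometry.dist_eq])
  have h2 : ‖fderiv ℝ (fderiv ℝ N) (g x) - fderiv ℝ (fderiv ℝ N) (g y)‖ < ε :=
    (dist_eq_norm (fderiv ℝ (fderiv ℝ N) (g x)) (fderiv ℝ (fderiv ℝ N) (g y))).symm.trans_lt h1
  exact (dist_eq_norm (fderiv ℝ (fderiv ℝ (fun x => N (g x))) x)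
    (fderiv ℝ (fderiv ℝ (fun x => N (g x))) y)).trans_lt
    ((norm_fderiv2_comp_sub_le hN g hx0 hy0).trans_lt h2)

private theorem zero_ne_one' {N : F → ℝ} (hE : EqNorm N) : N 0 ≠ 1 := by
  obtain ⟨⟨c, C, hc, hC, h1⟩, h2, h3⟩ := hE
  have := (h1 0).2
  rw [norm_zero, mul_zero] at this
  intro h
  rw [h] at this
  linarith

/-- ROW B2b. -/
theorem LocC2.comp {N : F → ℝ} (hE : EqNorm N) (hN : LocC2 N) (g : E →ₗᵢ[ℝ] F) :
    LocC2 (fun x => N (g x)) := by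
  refine ⟨contDiffOn_comp hN.1 g, fun x hx => ?_⟩
  obtain ⟨r, hr, hU⟩ := hN.2 (g x) hx
  refine ⟨r, hr, (uc_comp hN.1 g _ ?_ hU).mono ?_⟩
  · rintro ⟨h, -⟩
    exact zero_ne_one' hE h
  · rintro y ⟨hy, hy'⟩
    refine ⟨hy, ?_⟩
    rw [Metric.mem_ball] at hy' ⊢
    rwa [g.isometry.dist_eq]

/-- ROW B2c. -/
theorem UnifC2.comp {N : F → ℝ} (hE : EqNorm N) (hN : UnifC2 N) (g : E →ₗᵢ[ℝ] F) :
    UnifC2 (fun x => N (g x)) := by
  refine ⟨contDiffOn_comp hN.1 g, (uc_comp hN.1 g _ ?_ hN.2).mono ?_⟩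
  · intro h
    exact zero_ne_one' hE h
  · intro y hy
    exact hy

theorem PNorm.comp {N : F → ℝ} (hN : PNorm N) (g : E →ₗᵢ[ℝ] F) : PNorm (fun x => N (g x)) :=
  ⟨hN.1.comp g, hN.2.1.comp g, UnifC2.comp hN.1 hN.2.2 g⟩

/-- ROW B2d. For `cnt`: if `x ≠ 0` and `‖x - y‖ ≤ ‖x‖ / (k + 2)` then `y ≠ 0`. -/
theorem Cond.comp {i k : ℕ} {N : F → ℝ} (hN : Cond i k N)
    (hC : ContDiffOn ℝ 2 N {x : F | x ≠ 0}) (g : E →ₗᵢ[ℝ] F) : Cond i k (fun x => N (g x)) := by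
  have hg : ∀ x : E, x ≠ 0 → g x ≠ 0 := by
    intro x hx h
    apply hx
    rw [← norm_eq_zero, ← g.norm_map, h, norm_zero]
  refine ⟨fun x => ?_, fun x => ?_, fun x hx => ?_, fun x y hx hy hxy => ?_, fun x y hx hxy => ?_⟩
  · have := hN.low (g x)
    rwa [g.norm_map] at this
  · have := hN.upp (g x)
    rwa [g.norm_map] at this
  · have h1 := hN.bdd (g x) (hg x hx)
    rw [g.norm_map] at h1
    exact (mul_le_mul_of_nonneg_right (norm_fderiv2_comp_le hC g hx) (norm_nonneg _)).trans h1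
  · have h1 := hN.ucv (g x) (g y) hx hy (by rwa [← map_sub])
    rw [← map_add, ← map_smul] at h1
    exact h1
  · have hk : (0 : ℝ) < (k : ℝ) + 2 := by positivity
    have hx0 : 0 < ‖x‖ := norm_pos_iff.2 hx
    have hy : y ≠ 0 := by
      rintro rfl
      rw [sub_zero, le_div_iff₀ hk] at hxy
      nlinarith [(Nat.cast_nonneg k : (0 : ℝ) ≤ k)]
    have h1 := hN.cnt (g x) (g y) (hg x hx) (by
      rw [← map_sub, g.norm_map, g.norm_map]
      exact hxy)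
    rw [g.norm_map] at h1
    exact (mul_le_mul_of_nonneg_right (norm_fderiv2_comp_sub_le hC g hx hy) (norm_nonneg _)).trans h1

end Pool.Agent.H47.SR
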