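import Pool.Agent.H47.SR.A3
import Pool.Agent.H47.SR.B2

/-!
# C1: one sequence of moduli for all separable subspaces
-/

set_option autoImplicit false

open TopologicalSpace

namespace Pool.Agent.H47.SR

variable {X : Type*} [NormedAddCommGroup X] [NormedSpace ℝ X]

/-- ROW C1a. By contradiction (`push Not`): for every `k` there is a closed separable `Y k` without such a norm. Let
`Z = (⨆ k, Y k).topologicalClosure`; it is closed and separable (the supremum is `Submodule.span ℝ (⋃ k, (Y k : Set X))`
(`Submodule.iSup_eq_span`), `IsSeparable.span`, `IsSeparable.iUnion`, `IsSeparable.closure`). Take `N` on `Z`; by `exists_cond hN m` there is `k`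
with `Cond m k N`; restrict `N` to `Y k ≤ Z` with the linear isometry given by the inclusion (`Submodule.inclusion`,
`PNorm.comp`, `Cond.comp`). Contradiction. -/
theorem step (p : ℕ → ℕ) (m : ℕ)
    (h : ∀ Y : Submodule ℝ X, IsClosed (Y : Set X) → IsSeparable (Y : Set X) →
      ∃ N : Y → ℝ, PNorm N ∧ ∀ i < m, Cond i (p i) N) :
    ∃ k : ℕ, ∀ Y : Submodule ℝ X, IsClosed (Y : Set X) → IsSeparable (Y : Set X) →
      ∃ N : Y → ℝ, PNorm N ∧ (∀ i < m, Cond i (p i) N) ∧ Cond m k N := by
  by_contra hcon
  push Not at hcon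
  choose Y hYc hYs hY using hcon
  have hsep : IsSeparable ((⨆ k, Y k : Submodule ℝ X) : Set X) := by
    rw [Submodule.iSup_eq_span]
    exact (IsSeparable.iUnion hYs).span
  have hZc : IsClosed (((⨆ k, Y k : Submodule ℝ X).topologicalClosure : Submodule ℝ X) : Set X) :=
    Submodule.isClosed_topologicalClosure _
  have hZs : IsSeparable (((⨆ k, Y k : Submodule ℝ X).topologicalClosure : Submodule ℝ X) : Set X) := by
    rw [Submodule.topologicalClosure_coe]
    exact hsep.closure
  obtain ⟨N, hN, hi⟩ := h _ hZc hZs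
  obtain ⟨k, hk⟩ := exists_cond hN m
  have hle : Y k ≤ (⨆ k, Y k : Submodule ℝ X).topologicalClosure :=
    (le_iSup Y k).trans (Submodule.le_topologicalClosure _)
  let g : Y k →ₗᵢ[ℝ] ((⨆ k, Y k : Submodule ℝ X).topologicalClosure : Submodule ℝ X) :=
    ⟨Submodule.inclusion hle, fun _ => rfl⟩
  exact hY k (fun x => N (g x)) (hN.comp g) (fun i him => (hi i him).comp hN.2.2.1 g)
    (hk.comp hN.2.2.1 g)

end Pool.Agent.H47.SR
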