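import Pool.Agent.H47.SR.C1

/-!
# C2: one sequence of moduli for all separable subspaces, continued
-/

set_option autoImplicit false

open TopologicalSpace

namespace Pool.Agent.H47.SR

variable {X : Type*} [NormedAddCommGroup X] [NormedSpace ℝ X]

/-- ROW C2a. Dependent choice with `step`: the property of `(m, p)` depends only on `p i`, `i < m`. For example build by recursion
the list/functions `q : ℕ → (ℕ → ℕ)` with `q (m + 1) = Function.update (q m) m k`, `k` from `step (q m) m`, and put `p m = q (m + 1) m`;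
then `q m i = p i` for `i < m`. -/
theorem exists_moduli
    (h : ∀ Y : Submodule ℝ X, IsClosed (Y : Set X) → IsSeparable (Y : Set X) →
      ∃ N : Y → ℝ, PNorm N) :
    ∃ p : ℕ → ℕ, ∀ m : ℕ, ∀ Y : Submodule ℝ X, IsClosed (Y : Set X) → IsSeparable (Y : Set X) →
      ∃ N : Y → ℝ, PNorm N ∧ ∀ i < m, Cond i (p i) N := by
  classical
  obtain ⟨P, hP⟩ : ∃ P : ℕ → (ℕ → ℕ) → Prop, P = fun m p => ∀ Y : Submodule ℝ X, IsClosed (Y : Set X) →
      IsSeparable (Y : Set X) → ∃ N : Y → ℝ, PNorm N ∧ ∀ i < m, Cond i (p i) N := ⟨_, rfl⟩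
  have hstep : ∀ m q, P m q → ∃ k, P (m + 1) (Function.update q m k) := by
    intro m q hq
    rw [hP] at hq
    obtain ⟨k, hk⟩ := step q m hq
    refine ⟨k, ?_⟩
    rw [hP]
    intro Y hY hYs
    obtain ⟨N, h1, h2, h3⟩ := hk Y hY hYs
    refine ⟨N, h1, fun i hi => ?_⟩
    rcases Nat.lt_succ_iff_lt_or_eq.1 hi with h4 | h4
    · rw [Function.update_of_ne (by omega)]
      exact h2 i h4
    · subst h4
      rw [Function.update_self]
      exact h3
  have h0 : P 0 (fun _ => 0) := by
    rw [hP]
    intro Y hY hYs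
    obtain ⟨N, hN⟩ := h Y hY hYs
    exact ⟨N, hN, fun i hi => absurd hi (Nat.not_lt_zero i)⟩
  choose! k hk using hstep
  let q : ℕ → (ℕ → ℕ) := fun n => Nat.rec (fun _ => 0) (fun m q => Function.update q m (k m q)) n
  have hqs : ∀ m, q (m + 1) = Function.update (q m) m (k m (q m)) := fun m => rfl
  have hqP : ∀ m, P m (q m) := by
    intro m
    induction m with
    | zero => exact h0
    | succ m ih =>
      rw [hqs]
      exact hk m (q m) ih
  have hst : ∀ m i, i < m → q m i = q (i + 1) i := by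
    intro m
    induction m with
    | zero =>
      intro i hi
      omega
    | succ m ih =>
      intro i hi
      rcases Nat.lt_succ_iff_lt_or_eq.1 hi with h4 | h4
      · rw [hqs, Function.update_of_ne (by omega)]
        exact ih i h4
      · rw [h4]
  refine ⟨fun i => q (i + 1) i, fun m Y hY hYs => ?_⟩
  have h5 := hqP m
  rw [hP] at h5
  obtain ⟨N, h1, h2⟩ := h5 Y hY hYs
  refine ⟨N, h1, fun i hi => ?_⟩
  have h6 := h2 i hi
  rw [hst m i hi] at h6
  exact h6

end Pool.Agent.H47.SR
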