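import Mathlib

/-!
# Uniformly convex norms with uniformly continuous second derivative: definitions
-/

set_option autoImplicit false

open Filter Topology

namespace Pool.Agent.H47.SR

section defs

variable {E : Type*} [NormedAddCommGroup E] [NormedSpace ℝ E]

/-- `N` is an equivalent norm on `E`. -/
def EqNorm (N : E → ℝ) : Prop :=
  (∃ c C : ℝ, 0 < c ∧ 0 < C ∧ ∀ x : E, c * ‖x‖ ≤ N x ∧ N x ≤ C * ‖x‖) ∧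
    (∀ x y : E, N (x + y) ≤ N x + N y) ∧ (∀ (t : ℝ) (x : E), N (t • x) = |t| * N x)

/-- `N` is uniformly convex. -/
def UConv (N : E → ℝ) : Prop :=
  ∀ ε : ℝ, 0 < ε → ∃ δ : ℝ, 0 < δ ∧ ∀ x y : E, N x ≤ 1 → N y ≤ 1 →
    ε ≤ N (x - y) → N ((1 / 2 : ℝ) • (x + y)) ≤ 1 - δ

/-- `N` is `C²` off the origin and its second derivative is locally uniformly continuous on the
unit sphere of `N`. -/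
def LocC2 (N : E → ℝ) : Prop :=
  ContDiffOn ℝ 2 N {x : E | x ≠ 0} ∧
    ∀ x : E, N x = 1 → ∃ r : ℝ, 0 < r ∧
      UniformContinuousOn (fderiv ℝ (fderiv ℝ N)) ({y : E | N y = 1} ∩ Metric.ball x r)

/-- `N` is `C²` off the origin and its second derivative is uniformly continuous on the unit
sphere of `N`. -/
def UnifC2 (N : E → ℝ) : Prop :=
  ContDiffOn ℝ 2 N {x : E | x ≠ 0} ∧
    UniformContinuousOn (fderiv ℝ (fderiv ℝ N)) {y : E | N y = 1}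

/-- `N` is an equivalent uniformly convex norm whose second derivative is uniformly continuous
on its unit sphere. -/
def PNorm (N : E → ℝ) : Prop := EqNorm N ∧ UConv N ∧ UnifC2 N

/-- Quantitative conditions at scale `i` with parameter `k`. -/
structure Cond (i k : ℕ) (N : E → ℝ) : Prop where
  low : ∀ x : E, ‖x‖ ≤ ((k : ℝ) + 1) * N x
  upp : ∀ x : E, N x ≤ ((k : ℝ) + 1) * ‖x‖
  bdd : ∀ x : E, x ≠ 0 → ‖fderiv ℝ (fderiv ℝ N) x‖ * ‖x‖ ≤ (k : ℝ) + 1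
  ucv : ∀ x y : E, N x ≤ 1 → N y ≤ 1 → 1 / ((i : ℝ) + 1) ≤ N (x - y) →
    N ((1 / 2 : ℝ) • (x + y)) ≤ 1 - 1 / ((k : ℝ) + 1)
  cnt : ∀ x y : E, x ≠ 0 → ‖x - y‖ ≤ ‖x‖ / ((k : ℝ) + 2) →
    ‖fderiv ℝ (fderiv ℝ N) x - fderiv ℝ (fderiv ℝ N) y‖ * ‖x‖ ≤ 1 / ((i : ℝ) + 1)

end defs

variable {X : Type*} [NormedAddCommGroup X] [NormedSpace ℝ X]

/-- Estimates for a norm `N`, its first derivative `D` and its second derivative `B` on the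
subspace `S`, with the moduli coded by `p`, down to the scale `m`. -/
structure Est (p : ℕ → ℕ) (m : ℕ) (S : Submodule ℝ X) (N : X → ℝ) (D : X → X → ℝ)
    (B : X → X → X → ℝ) : Prop where
  low : ∀ x ∈ S, ‖x‖ ≤ ((p 0 : ℝ) + 1) * N x
  upp : ∀ x ∈ S, N x ≤ ((p 0 : ℝ) + 1) * ‖x‖
  tri : ∀ x ∈ S, ∀ y ∈ S, N (x + y) ≤ N x + N y
  hom : ∀ (t : ℝ), ∀ x ∈ S, N (t • x) = |t| * N x
  ucv : ∀ j ≤ m, ∀ x ∈ S, ∀ y ∈ S, N x ≤ 1 → N y ≤ 1 → 1 / ((j : ℝ) + 1) < N (x - y) →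
    N ((1 / 2 : ℝ) • (x + y)) ≤ 1 - 1 / ((p j : ℝ) + 1)
  Dadd : ∀ x ∈ S, x ≠ 0 → ∀ h ∈ S, ∀ k ∈ S, D x (h + k) = D x h + D x k
  Dsmul : ∀ x ∈ S, x ≠ 0 → ∀ (t : ℝ), ∀ h ∈ S, D x (t • h) = t * D x h
  Dbd : ∀ x ∈ S, x ≠ 0 → ∀ h ∈ S, |D x h| ≤ ((p 0 : ℝ) + 1) * ‖h‖
  Badd₁ : ∀ x ∈ S, x ≠ 0 → ∀ h ∈ S, ∀ h' ∈ S, ∀ k ∈ S, B x (h + h') k = B x h k + B x h' k
  Bsmul₁ : ∀ x ∈ S, x ≠ 0 → ∀ (t : ℝ), ∀ h ∈ S, ∀ k ∈ S, B x (t • h) k = t * B x h k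
  Badd₂ : ∀ x ∈ S, x ≠ 0 → ∀ h ∈ S, ∀ k ∈ S, ∀ k' ∈ S, B x h (k + k') = B x h k + B x h k'
  Bsmul₂ : ∀ x ∈ S, x ≠ 0 → ∀ (t : ℝ), ∀ h ∈ S, ∀ k ∈ S, B x h (t • k) = t * B x h k
  Bbd : ∀ x ∈ S, x ≠ 0 → ∀ h ∈ S, ∀ k ∈ S, |B x h k| * ‖x‖ ≤ ((p 0 : ℝ) + 1) * ‖h‖ * ‖k‖
  sub : ∀ x ∈ S, x ≠ 0 → ∀ h ∈ S, D x h ≤ N (x + h) - N x
  tay : ∀ j ≤ m, ∀ x ∈ S, x ≠ 0 → ∀ h ∈ S, ∀ k ∈ S, ‖h‖ ≤ ‖x‖ / ((p j : ℝ) + 2) →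
    |D (x + h) k - D x k - B x h k| * ‖x‖ ≤ ‖h‖ * ‖k‖ / ((j : ℝ) + 1)
  cnt : ∀ j ≤ m, ∀ x ∈ S, x ≠ 0 → ∀ y ∈ S, ∀ h ∈ S, ∀ k ∈ S,
    ‖x - y‖ ≤ ‖x‖ / ((p j : ℝ) + 2) →
    |B x h k - B y h k| * ‖x‖ ≤ ‖h‖ * ‖k‖ / ((j : ℝ) + 1)

end Pool.Agent.H47.SR
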