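import Pool.Agent.H47.SR.Df

/-!
# F1: a function with the estimates is twice differentiable
-/

set_option autoImplicit false

open Filter Topology

namespace Pool.Agent.H47.SR

variable {X : Type*} [NormedAddCommGroup X] [NormedSpace ℝ X]

/-- ROW F1a. `D x` as a continuous linear map (`LinearMap.mkContinuous`, for `x = 0` take 0) and `B x` as a continuous bilinear map
(`LinearMap.mkContinuous₂`, constant `(p 0 + 1) / ‖x‖`). -/
theorem exists_clm (p : ℕ → ℕ) (N : X → ℝ) (D : X → X → ℝ) (B : X → X → X → ℝ)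
    (h : ∀ m, Est p m ⊤ N D B) :
    ∃ (D' : X → X →L[ℝ] ℝ) (B' : X → X →L[ℝ] X →L[ℝ] ℝ),
      (∀ x, x ≠ 0 → ∀ h, D' x h = D x h) ∧ (∀ x, x ≠ 0 → ∀ h k, B' x h k = B x h k) := by
  have H := h 0
  have h1 : ∀ x : X, ∃ D' : X →L[ℝ] ℝ, x ≠ 0 → ∀ h, D' h = D x h := by
    intro x
    by_cases hx : x = 0
    · exact ⟨0, fun h => absurd hx h⟩
    · let L : X →ₗ[ℝ] ℝ :=
        { toFun := D x
          map_add' := fun a b => H.Dadd x trivial hx a trivial b trivial
          map_smul' := fun t a => H.Dsmul x trivial hx t a trivial }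
      refine ⟨L.mkContinuous ((p 0 : ℝ) + 1) ?_, fun _ h => rfl⟩
      intro a
      exact H.Dbd x trivial hx a trivial
  have h2 : ∀ x : X, ∃ B' : X →L[ℝ] X →L[ℝ] ℝ, x ≠ 0 → ∀ h k, B' h k = B x h k := by
    intro x
    by_cases hx : x = 0
    · exact ⟨0, fun h => absurd hx h⟩
    · let L : X →ₗ[ℝ] X →ₗ[ℝ] ℝ := LinearMap.mk₂ ℝ (B x)
        (fun a b c => H.Badd₁ x trivial hx a trivial b trivial c trivial)
        (fun t a c => H.Bsmul₁ x trivial hx t a trivial c trivial)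
        (fun a b c => H.Badd₂ x trivial hx a trivial b trivial c trivial)
        (fun t a c => H.Bsmul₂ x trivial hx t a trivial c trivial)
      refine ⟨L.mkContinuous₂ (((p 0 : ℝ) + 1) / ‖x‖) ?_, fun _ h k => rfl⟩
      intro a b
      have hx0 : 0 < ‖x‖ := norm_pos_iff.mpr hx
      have h3 := H.Bbd x trivial hx a trivial b trivial
      change |B x a b| ≤ _
      rw [show ((p 0 : ℝ) + 1) / ‖x‖ * ‖a‖ * ‖b‖ = (((p 0 : ℝ) + 1) * ‖a‖ * ‖b‖) / ‖x‖ by ring,
        le_div_iff₀ hx0]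
      exact h3
  choose D' hD' using h1
  choose B' hB' using h2
  exact ⟨D', B', hD', hB'⟩

/-- ROW F1b. `0 ≤ N (x + h) - N x - D x h ≤ (D (x + h) - D x) h` (`sub` at `x` with `h` and at `x + h` with `-h`), and by
`tay` (`j = 0`) and `Bbd` the right side is `≤ (p 0 + 2) ‖h‖ ^ 2 / ‖x‖` for `‖h‖ ≤ ‖x‖ / (p 0 + 2)`. -/
theorem hasFDerivAt_N (p : ℕ → ℕ) (N : X → ℝ) (D : X → X → ℝ) (B : X → X → X → ℝ)
    (h : ∀ m, Est p m ⊤ N D B) (D' : X → X →L[ℝ] ℝ) (hD : ∀ x, x ≠ 0 → ∀ h, D' x h = D x h)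
    {x : X} (hx : x ≠ 0) : HasFDerivAt N (D' x) x := by
  have H := h 0
  have hx0 : 0 < ‖x‖ := norm_pos_iff.mpr hx
  have hp : (0 : ℝ) < (p 0 : ℝ) + 2 := by positivity
  rw [hasFDerivAt_iff_isLittleO_nhds_zero]
  have key : (fun k : X => N (x + k) - N x - D' x k) =O[𝓝 0] fun k : X => ‖k‖ ^ 2 := by
    apply Asymptotics.IsBigO.of_bound (((p 0 : ℝ) + 2) / ‖x‖)
    have hr : 0 < ‖x‖ / ((p 0 : ℝ) + 2) := by positivity
    filter_upwards [Metric.ball_mem_nhds (0 : X) hr] with k hk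
    rw [mem_ball_zero_iff] at hk
    have hk' : ‖k‖ ≤ ‖x‖ / ((p 0 : ℝ) + 2) := hk.le
    have hxk : x + k ≠ 0 := by
      intro h0
      have h1 : k = -x := by rw [← sub_eq_zero, sub_neg_eq_add, add_comm]; exact h0
      rw [h1, norm_neg, lt_div_iff₀ hp] at hk
      have hp0 : (0 : ℝ) ≤ (p 0 : ℝ) := Nat.cast_nonneg _
      nlinarith
    have e1 := H.sub x trivial hx k trivial
    have e2 := H.sub (x + k) trivial hxk (-k) trivial
    have e3 : D (x + k) (-k) = -D (x + k) k := by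
      have := H.Dsmul (x + k) trivial hxk (-1) k trivial
      rw [neg_one_smul] at this
      rw [this]; ring
    rw [e3, add_neg_cancel_right] at e2
    have e4 := H.tay 0 le_rfl x trivial hx k trivial k trivial hk'
    have e5 := H.Bbd x trivial hx k trivial k trivial
    have e6 : D (x + k) k - D x k ≤ |D (x + k) k - D x k - B x k k| + |B x k k| := by
      have a1 := le_abs_self (D (x + k) k - D x k - B x k k)
      have a2 := le_abs_self (B x k k)
      linarith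
    have e7 : (D (x + k) k - D x k) * ‖x‖ ≤ ((p 0 : ℝ) + 2) * ‖k‖ ^ 2 := by
      have a1 : (D (x + k) k - D x k) * ‖x‖ ≤
          (|D (x + k) k - D x k - B x k k| + |B x k k|) * ‖x‖ :=
        mul_le_mul_of_nonneg_right e6 hx0.le
      have a2 : ‖k‖ * ‖k‖ / (((0 : ℕ) : ℝ) + 1) = ‖k‖ ^ 2 := by
        rw [Nat.cast_zero, zero_add, div_one]; ring
      rw [a2] at e4
      nlinarith
    have e8 : D' x k = D x k := hD x hx k
    rw [e8, Real.norm_of_nonneg (by linarith), Real.norm_of_nonneg (by positivity),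
      show ((p 0 : ℝ) + 2) / ‖x‖ * ‖k‖ ^ 2 = (((p 0 : ℝ) + 2) * ‖k‖ ^ 2) / ‖x‖ by ring,
      le_div_iff₀ hx0]
    have e9 : N (x + k) - N x - D x k ≤ D (x + k) k - D x k := by linarith
    exact (mul_le_mul_of_nonneg_right e9 hx0.le).trans e7
  exact key.trans_isLittleO (Asymptotics.isLittleO_norm_pow_id one_lt_two)

end Pool.Agent.H47.SR
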