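import Pool.Agent.H47.SR.A1
import Pool.Agent.H47.SR.B1

/-!
# U1: norms with given moduli
-/

set_option autoImplicit false

namespace Pool.Agent.H47.SR

section
variable {E : Type*} [NormedAddCommGroup E] [NormedSpace ℝ E]

/-- `N` is a norm with the constant `K`, the modulus of convexity `δ` and the modulus of
continuity `ω` for its second derivative on its unit sphere. -/
structure Mod (K : ℝ) (δ ω : ℝ → ℝ) (N : E → ℝ) : Prop where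
  low : ∀ x : E, ‖x‖ ≤ K * N x
  upp : ∀ x : E, N x ≤ K * ‖x‖
  tri : ∀ x y : E, N (x + y) ≤ N x + N y
  hom : ∀ (t : ℝ) (x : E), N (t • x) = |t| * N x
  ucv : ∀ ε : ℝ, 0 < ε → ∀ x y : E, N x ≤ 1 → N y ≤ 1 → ε ≤ N (x - y) →
    N ((1 / 2 : ℝ) • (x + y)) ≤ 1 - δ ε
  c2 : ContDiffOn ℝ 2 N {x : E | x ≠ 0}
  cnt : ∀ ε : ℝ, 0 < ε → ∀ x y : E, N x = 1 → N y = 1 → ‖x - y‖ ≤ ω ε →
    ‖fderiv ℝ (fderiv ℝ N) x - fderiv ℝ (fderiv ℝ N) y‖ ≤ ε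

theorem Mod.eqNorm {K : ℝ} {δ ω : ℝ → ℝ} {N : E → ℝ} (hK : 0 < K) (h : Mod K δ ω N) :
    EqNorm N := by
  refine ⟨⟨K⁻¹, K, inv_pos.2 hK, hK, fun x => ⟨?_, h.upp x⟩⟩, h.tri, h.hom⟩
  have := h.low x
  rw [inv_mul_le_iff₀ hK]
  exact this

theorem Mod.unifC2 {K : ℝ} {δ ω : ℝ → ℝ} {N : E → ℝ} (hω : ∀ ε : ℝ, 0 < ε → 0 < ω ε)
    (h : Mod K δ ω N) : UnifC2 N := by
  refine ⟨h.c2, (Metric.uniformContinuousOn_iff (α := E) (β := E →L[ℝ] E →L[ℝ] ℝ)).2 ?_⟩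
  intro ε hε
  refine ⟨ω (ε / 2), hω _ (by linarith), fun x hx y hy hxy => ?_⟩
  rw [dist_eq_norm] at hxy
  have h1 := h.cnt (ε / 2) (by linarith) x y hx hy hxy.le
  exact (dist_eq_norm (fderiv ℝ (fderiv ℝ N) x) (fderiv ℝ (fderiv ℝ N) y)).trans_lt
    (lt_of_le_of_lt h1 (by linarith))

theorem Mod.pnorm {K : ℝ} {δ ω : ℝ → ℝ} {N : E → ℝ} (hK : 0 < K)
    (hδ : ∀ ε : ℝ, 0 < ε → 0 < δ ε) (hω : ∀ ε : ℝ, 0 < ε → 0 < ω ε)
    (h : Mod K δ ω N) : PNorm N :=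
  ⟨h.eqNorm hK, fun ε hε => ⟨δ ε, hδ ε hε, fun x y hx hy hxy => h.ucv ε hε x y hx hy hxy⟩,
    h.unifC2 hω⟩

/-- Every norm as in the conclusion has some moduli. -/
theorem PNorm.exists_mod {N : E → ℝ} (h : PNorm N) :
    ∃ (K : ℝ) (δ ω : ℝ → ℝ), 0 < K ∧ (∀ ε : ℝ, 0 < ε → 0 < δ ε ∧ 0 < ω ε) ∧ Mod K δ ω N := by
  obtain ⟨⟨⟨c, C, hc, hC, h1⟩, h2, h3⟩, h4, h5, h6⟩ := h
  replace h6 := (Metric.uniformContinuousOn_iff (α := E) (β := E →L[ℝ] E →L[ℝ] ℝ)).1 h6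
  have hδ : ∀ ε : ℝ, ∃ d : ℝ, 0 < ε → 0 < d ∧ ∀ x y : E, N x ≤ 1 → N y ≤ 1 →
      ε ≤ N (x - y) → N ((1 / 2 : ℝ) • (x + y)) ≤ 1 - d := by
    intro ε
    by_cases hε : 0 < ε
    · obtain ⟨d, hd, h⟩ := h4 ε hε
      exact ⟨d, fun _ => ⟨hd, h⟩⟩
    · exact ⟨0, fun h => absurd h hε⟩
  have hω : ∀ ε : ℝ, ∃ d : ℝ, 0 < ε → 0 < d ∧ ∀ x y : E, N x = 1 → N y = 1 → ‖x - y‖ ≤ d →
      ‖fderiv ℝ (fderiv ℝ N) x - fderiv ℝ (fderiv ℝ N) y‖ ≤ ε := by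
    intro ε
    by_cases hε : 0 < ε
    · obtain ⟨d, hd, h⟩ := h6 ε hε
      refine ⟨d / 2, fun _ => ⟨by linarith, fun x y hx hy hxy => ?_⟩⟩
      have h8 := h x hx y hy (by rw [dist_eq_norm]; linarith)
      exact ((dist_eq_norm (fderiv ℝ (fderiv ℝ N) x) (fderiv ℝ (fderiv ℝ N) y)).symm.trans_lt
        h8).le
    · exact ⟨0, fun h => absurd h hε⟩
  choose δ hδ' using hδ
  choose ω hω' using hω
  refine ⟨max C c⁻¹, δ, ω, lt_of_lt_of_le hC (le_max_left _ _),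
    fun ε hε => ⟨(hδ' ε hε).1, (hω' ε hε).1⟩, ?_⟩
  have hN0 : ∀ x, 0 ≤ N x := fun x => le_trans (by positivity) (h1 x).1
  refine ⟨fun x => ?_, fun x => ?_, h2, h3, fun ε hε => (hδ' ε hε).2, h5,
    fun ε hε => (hω' ε hε).2⟩
  · have h7 : ‖x‖ ≤ c⁻¹ * N x := by
      rw [le_inv_mul_iff₀ hc]
      exact (h1 x).1
    exact h7.trans (mul_le_mul_of_nonneg_right (le_max_right _ _) (hN0 x))
  · exact (h1 x).2.trans (mul_le_mul_of_nonneg_right (le_max_left _ _) (norm_nonneg _))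

end

section
variable {E : Type*} [NormedAddCommGroup E] [NormedSpace ℝ E]
variable {F : Type*} [NormedAddCommGroup F] [NormedSpace ℝ F]

theorem Mod.comp {K : ℝ} {δ ω : ℝ → ℝ} {N : F → ℝ} (h : Mod K δ ω N) (g : E →ₗᵢ[ℝ] F) :
    Mod K δ ω (fun x => N (g x)) := by
  have hne : ∀ x : E, N (g x) = 1 → x ≠ 0 := by
    rintro x hx rfl
    have := h.hom 0 0
    simp at this
    simp [this] at hx
  refine ⟨fun x => ?_, fun x => ?_, fun x y => ?_, fun t x => ?_, fun ε hε x y hx hy hxy => ?_,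
    contDiffOn_comp h.c2 g, fun ε hε x y hx hy hxy => ?_⟩
  · have := h.low (g x)
    rwa [g.norm_map] at this
  · have := h.upp (g x)
    rwa [g.norm_map] at this
  · simpa using h.tri (g x) (g y)
  · simpa using h.hom t (g x)
  · have := h.ucv ε hε (g x) (g y) hx hy (by simpa using hxy)
    simpa using this
  · refine (norm_fderiv2_comp_sub_le h.c2 g (hne x hx) (hne y hy)).trans
      (h.cnt ε hε (g x) (g y) hx hy ?_)
    rw [← map_sub, g.norm_map]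
    exact hxy

end

end Pool.Agent.H47.SR
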