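import Pool.Agent.H47.SR.U2

/-!
# U3: common constants for all norms with given moduli, continued
-/

set_option autoImplicit false

namespace Pool.Agent.H47.SR

universe u

private theorem aux_smul {V : Type*} [NormedAddCommGroup V] [NormedSpace ℝ V] {a b : ℝ} (ha : 0 < a)
    (X Y : V) : a * ‖X - Y‖ ≤ ‖a • X - b • Y‖ + |b - a| * ‖Y‖ := by
  have hid : a • (X - Y) = (a • X - b • Y) + (b - a) • Y := by
    rw [smul_sub, sub_smul]; abel
  have h11 : ‖a • (X - Y)‖ = a * ‖X - Y‖ := by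
    rw [norm_smul, Real.norm_eq_abs, abs_of_pos ha]
  rw [← h11, hid]
  refine (norm_add_le _ _).trans (add_le_add le_rfl ?_)
  rw [norm_smul, Real.norm_eq_abs]

/-- ROW U3a. The proof of `exists_cnt` (file A3) with all constants explicit. -/
theorem exists_cnt_unif (K : ℝ) (δ ω : ℝ → ℝ) (hK : 0 < K) (hω : ∀ ε : ℝ, 0 < ε → 0 < ω ε)
    {ε : ℝ} (hε : 0 < ε) :
    ∃ η : ℝ, 0 < η ∧ ∀ (E : Type u) [NormedAddCommGroup E] [NormedSpace ℝ E] (N : E → ℝ),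
      Mod K δ ω N → ∀ x y : E, x ≠ 0 → ‖x - y‖ ≤ η * ‖x‖ →
        ‖fderiv ℝ (fderiv ℝ N) x - fderiv ℝ (fderiv ℝ N) y‖ * ‖x‖ ≤ ε := by
  obtain ⟨C₀, hC₀⟩ := exists_bdd_unif.{u} K δ ω hK hω
  set C₁ : ℝ := max C₀ 1 with hC₁
  have hC₁p : 0 < C₁ := lt_of_lt_of_le one_pos (le_max_right _ _)
  have hε2 : 0 < ε / (2 * K) := by positivity
  have hω2 := hω _ hε2
  set η : ℝ := min (1 / 2) (min (ω (ε / (2 * K)) / (K * (1 + K ^ 2))) (ε / (4 * K ^ 2 * C₁))) with hη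
  have hη0 : 0 < η := lt_min (by norm_num) (lt_min (by positivity) (by positivity))
  have hη1 : η ≤ 1 / 2 := min_le_left _ _
  have hη2 : η * (K * (1 + K ^ 2)) ≤ ω (ε / (2 * K)) := by
    rw [← le_div_iff₀ (by positivity)]
    exact (min_le_right _ _).trans (min_le_left _ _)
  have hη3 : η * (4 * K ^ 2 * C₁) ≤ ε := by
    rw [← le_div_iff₀ (by positivity)]
    exact (min_le_right _ _).trans (min_le_right _ _)
  refine ⟨η, hη0, fun E _ _ N hM x y hx hxy => ?_⟩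
  have hN := hM.eqNorm hK
  have hbd : ∀ z : E, z ≠ 0 → ‖fderiv ℝ (fderiv ℝ N) z‖ * ‖z‖ ≤ C₁ := fun z hz =>
    (hC₀ E N hM z hz).trans (le_max_left _ _)
  have hxn : 0 < ‖x‖ := norm_pos_iff.2 hx
  have hyn : ‖x‖ / 2 ≤ ‖y‖ := by
    have h1 := norm_sub_norm_le x y
    have h2 : η * ‖x‖ ≤ 1 / 2 * ‖x‖ := mul_le_mul_of_nonneg_right hη1 hxn.le
    linarith
  have hyn0 : 0 < ‖y‖ := by linarith
  have hy : y ≠ 0 := norm_pos_iff.1 hyn0
  have hNx : 0 < N x := by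
    have := hM.low x
    by_contra hcon
    have h3 : K * N x ≤ 0 := mul_nonpos_of_nonneg_of_nonpos hK.le (not_lt.1 hcon)
    linarith
  have hNy : 0 < N y := by
    have := hM.low y
    by_contra hcon
    have h3 : K * N y ≤ 0 := mul_nonpos_of_nonneg_of_nonpos hK.le (not_lt.1 hcon)
    linarith
  have hneg : ∀ z : E, N (-z) = N z := by
    intro z
    have := hM.hom (-1) z
    simpa using this
  have hdiff : |N y - N x| ≤ K * ‖x - y‖ := by
    have h1 := hM.tri (y - x) x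
    have h2 := hM.tri (x - y) y
    rw [sub_add_cancel] at h1 h2
    have h3 : N (y - x) = N (x - y) := by rw [← neg_sub, hneg]
    have h4 := hM.upp (x - y)
    rw [abs_le]
    constructor <;> linarith
  have hx1 : N ((N x)⁻¹ • x) = 1 := by
    rw [hM.hom, abs_of_pos (inv_pos.2 hNx), inv_mul_cancel₀ hNx.ne']
  have hy1 : N ((N y)⁻¹ • y) = 1 := by
    rw [hM.hom, abs_of_pos (inv_pos.2 hNy), inv_mul_cancel₀ hNy.ne']
  have hdist : ‖(N x)⁻¹ • x - (N y)⁻¹ • y‖ ≤ ω (ε / (2 * K)) := by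
    have h1 : (N x)⁻¹ • x - (N y)⁻¹ • y = (N x)⁻¹ • (x - y) + ((N x)⁻¹ - (N y)⁻¹) • y := by
      rw [smul_sub, sub_smul]; abel
    have h2 : |(N x)⁻¹ - (N y)⁻¹| * ‖y‖ ≤ (N x)⁻¹ * (K * ‖x - y‖) * K := by
      have h3 : (N x)⁻¹ - (N y)⁻¹ = (N x)⁻¹ * ((N y - N x) * (N y)⁻¹) := by
        field_simp
      rw [h3, abs_mul, abs_mul, abs_of_pos (inv_pos.2 hNx), abs_of_pos (inv_pos.2 hNy)]
      have h4 : (N y)⁻¹ * ‖y‖ ≤ K := by
        rw [inv_mul_le_iff₀ hNy, mul_comm]; exact hM.low y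
      calc (N x)⁻¹ * (|N y - N x| * (N y)⁻¹) * ‖y‖ = (N x)⁻¹ * |N y - N x| * ((N y)⁻¹ * ‖y‖) := by ring
        _ ≤ (N x)⁻¹ * (K * ‖x - y‖) * K := by
          apply mul_le_mul _ h4 (by positivity) (by positivity)
          exact mul_le_mul_of_nonneg_left hdiff (by positivity)
    have h5 : (N x)⁻¹ * ‖x‖ ≤ K := by
      rw [inv_mul_le_iff₀ hNx, mul_comm]; exact hM.low x
    rw [h1]
    refine (norm_add_le _ _).trans ?_
    rw [norm_smul, norm_smul, Real.norm_eq_abs, Real.norm_eq_abs, abs_of_pos (inv_pos.2 hNx)]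
    have h6 : (N x)⁻¹ * ‖x - y‖ ≤ η * K := by
      calc (N x)⁻¹ * ‖x - y‖ ≤ (N x)⁻¹ * (η * ‖x‖) := mul_le_mul_of_nonneg_left hxy (by positivity)
        _ = η * ((N x)⁻¹ * ‖x‖) := by ring
        _ ≤ η * K := mul_le_mul_of_nonneg_left h5 hη0.le
    have h7 : (N x)⁻¹ * (K * ‖x - y‖) * K = ((N x)⁻¹ * ‖x - y‖) * K ^ 2 := by ring
    have h8 : ((N x)⁻¹ * ‖x - y‖) * K ^ 2 ≤ η * K * K ^ 2 := mul_le_mul_of_nonneg_right h6 (by positivity)
    have h9 : η * K + η * K * K ^ 2 = η * (K * (1 + K ^ 2)) := by ring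
    linarith
  have hB := hM.cnt (ε / (2 * K)) hε2 _ _ hx1 hy1 hdist
  rw [fderiv2_smul hN (inv_pos.2 hNx), fderiv2_smul hN (inv_pos.2 hNy), inv_inv, inv_inv] at hB
  set Bx := fderiv ℝ (fderiv ℝ N) x with hBx
  set By := fderiv ℝ (fderiv ℝ N) y with hBy
  have hBy0 : 0 ≤ ‖By‖ := by positivity
  have hBxy0 : 0 ≤ ‖Bx - By‖ := by positivity
  have h10 : N x * ‖Bx - By‖ ≤ ε / (2 * K) + K * ‖x - y‖ * ‖By‖ := by
    have h11 := aux_smul (b := N y) hNx Bx By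
    refine h11.trans (add_le_add hB ?_)
    exact mul_le_mul_of_nonneg_right hdiff hBy0
  have h12 : ‖x - y‖ * ‖By‖ ≤ 2 * C₁ * η := by
    have h13 : ‖By‖ * ‖x‖ ≤ 2 * C₁ := by
      have h14 := hbd y hy
      have h15 : ‖By‖ * (‖x‖ / 2) ≤ ‖By‖ * ‖y‖ := mul_le_mul_of_nonneg_left hyn hBy0
      linarith
    calc ‖x - y‖ * ‖By‖ ≤ (η * ‖x‖) * ‖By‖ := mul_le_mul_of_nonneg_right hxy hBy0
      _ = η * (‖By‖ * ‖x‖) := by ring
      _ ≤ η * (2 * C₁) := mul_le_mul_of_nonneg_left h13 hη0.le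
      _ = 2 * C₁ * η := by ring
  have h16 : N x * ‖Bx - By‖ ≤ ε / (2 * K) + K * (2 * C₁ * η) := by
    have h17 : K * ‖x - y‖ * ‖By‖ ≤ K * (2 * C₁ * η) := by
      rw [mul_assoc]; exact mul_le_mul_of_nonneg_left h12 hK.le
    linarith
  calc ‖Bx - By‖ * ‖x‖ ≤ ‖Bx - By‖ * (K * N x) := mul_le_mul_of_nonneg_left (hM.low x) hBxy0
    _ = K * (N x * ‖Bx - By‖) := by ring
    _ ≤ K * (ε / (2 * K) + K * (2 * C₁ * η)) := mul_le_mul_of_nonneg_left h16 hK.le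
    _ = ε / 2 + η * (4 * K ^ 2 * C₁) / 2 := by field_simp; ring
    _ ≤ ε := by linarith

/-- ROW U3b. The proof of `exists_cond` (file A3). -/
theorem exists_cond_unif (K : ℝ) (δ ω : ℝ → ℝ) (hK : 0 < K)
    (hδ : ∀ ε : ℝ, 0 < ε → 0 < δ ε) (hω : ∀ ε : ℝ, 0 < ε → 0 < ω ε) (i : ℕ) :
    ∃ k : ℕ, ∀ (E : Type u) [NormedAddCommGroup E] [NormedSpace ℝ E] (N : E → ℝ),
      Mod K δ ω N → Cond i k N := by
  obtain ⟨C, hC⟩ := exists_bdd_unif.{u} K δ ω hK hω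
  have hi : (0 : ℝ) < 1 / ((i : ℝ) + 1) := by positivity
  obtain ⟨η, hη, hcnt⟩ := exists_cnt_unif.{u} K δ ω hK hω hi
  have hδi := hδ _ hi
  obtain ⟨k, hk⟩ := exists_nat_gt (max (max K C) (max (1 / δ (1 / ((i : ℝ) + 1))) (1 / η)))
  have hk1 : K ≤ (k : ℝ) + 1 := by
    have := (le_max_left K C).trans (le_max_left _ (max (1 / δ (1 / ((i : ℝ) + 1))) (1 / η)))
    linarith
  have hk2 : C ≤ (k : ℝ) + 1 := by
    have := (le_max_right K C).trans (le_max_left _ (max (1 / δ (1 / ((i : ℝ) + 1))) (1 / η)))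
    linarith
  have hk3 : 1 / ((k : ℝ) + 1) ≤ δ (1 / ((i : ℝ) + 1)) := by
    have h1 := (le_max_left (1 / δ (1 / ((i : ℝ) + 1))) (1 / η)).trans (le_max_right (max K C) _)
    have h2 : 1 / δ (1 / ((i : ℝ) + 1)) ≤ (k : ℝ) + 1 := by linarith
    rw [div_le_iff₀ hδi] at h2
    rw [div_le_iff₀ (by positivity), mul_comm]
    exact h2
  have hk4 : 1 / ((k : ℝ) + 2) ≤ η := by
    have h1 := (le_max_right (1 / δ (1 / ((i : ℝ) + 1))) (1 / η)).trans (le_max_right (max K C) _)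
    have h2 : 1 / η ≤ (k : ℝ) + 2 := by linarith
    rw [div_le_iff₀ hη] at h2
    rw [div_le_iff₀ (by positivity), mul_comm]
    exact h2
  refine ⟨k, fun E _ _ N hM => ?_⟩
  have hN0 : ∀ z : E, 0 ≤ N z := by
    intro z
    have h1 := hM.low z
    have h2 := norm_nonneg z
    by_contra hcon
    have h3 : K * N z < 0 := mul_neg_of_pos_of_neg hK (not_le.1 hcon)
    linarith
  refine ⟨fun x => ?_, fun x => ?_, fun x hx => ?_, fun x y hx hy hxy => ?_, fun x y hx hxy => ?_⟩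
  · exact (hM.low x).trans (mul_le_mul_of_nonneg_right hk1 (hN0 x))
  · exact (hM.upp x).trans (mul_le_mul_of_nonneg_right hk1 (norm_nonneg x))
  · exact (hC E N hM x hx).trans hk2
  · have := hM.ucv _ hi x y hx hy hxy
    linarith
  · refine hcnt E N hM x y hx (hxy.trans ?_)
    have h1 : ‖x‖ / ((k : ℝ) + 2) = 1 / ((k : ℝ) + 2) * ‖x‖ := by ring
    rw [h1]
    exact mul_le_mul_of_nonneg_right hk4 (norm_nonneg x)

end Pool.Agent.H47.SR
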